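import Pool.Agent.Helper805.NucCert.Check
set_option autoImplicit false

/-! Nuclearity of `M5 x x x x x y` in super-alternative rings, up to a `{2,3}`-smooth factor. -/

namespace Pool.Agent.Helper805.NucCert
open Pool.Agent.Helper805.Nuc.Tens Pool.Agent.Helper805.Nuc.NFun

variable {R : Type} [NonUnitalNonAssocRing R] {P : ℕ → AddSubgroup R} {x z y : R}

/-- `373248 = 2 ^ 9 * 3 ^ 6` -/
theorem nuc_super (hP : SuperAlt R P) (hx : x ∈ P 1) (hz : z ∈ P 1) (hy : y ∈ P 0) :
    (373248 : ℤ) • as (M5 x x x x x y) z z = 0 := by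
  obtain ⟨g, hg, hM⟩ := W6_sound hP hx hz
  have h := cert_sound hP hx hz cert _ (Int.ofNat 373248) _ _ (hg.mul (Zz_sound hP hx hz)) check 0 y hy
  have h1 : (373248 : ℤ) • as (g 0 y) z z = 0 := h
  rw [hM]
  have h2 : as ((8 : ℤ) • g 0 y) z z = (8 : ℤ) • as (g 0 y) z z := by
    unfold as; simp only [smul_mul_assoc, smul_sub]
  rw [h2, smul_comm, h1, smul_zero]

end Pool.Agent.Helper805.NucCert
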