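import Pool.Agent.Helper805.NucCert.Target
set_option autoImplicit false
set_option maxRecDepth 100000

/-! Certificate data (found by computer): `373248 • (W6 followed by (·, z, z))` as a sum of 2301 two-sided
multiples of skew-symmetry relations. -/

namespace Pool.Agent.Helper805.NucCert

/-- constant polynomial -/
@[reducible] def K (k : ℤ) : Tri := .node k .nil .nil .nil .nil

def T0 : Tr := (.m .z .x)
def T1 : Tr := (.m .x .z)
def T2 : Tr := (.m .x .x)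
def T3 : Tr := (.m .z (.m .x .x))
def T4 : Tr := (.m .x (.m .z .x))
def T5 : Tr := (.m .x (.m .x .z))
def T6 : Tr := (.m (.m .z .x) .x)
def T7 : Tr := (.m .z (.m .z .x))
def T8 : Tr := (.m .z (.m .x .z))
def T9 : Tr := (.m .x (.m .x .x))
def T10 : Tr := (.m (.m .x .x) .x)
def T11 : Tr := (.m .z (.m .x (.m .x .x)))
def T12 : Tr := (.m .z (.m (.m .x .x) .x))
def T13 : Tr := (.m .x (.m .x (.m .z .x)))
def T14 : Tr := (.m .x (.m .x (.m .x .z)))
def T15 : Tr := (.m .x (.m (.m .z .x) .x))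
def T16 : Tr := (.m (.m .z .x) (.m .x .x))
def T17 : Tr := (.m .z (.m .z (.m .x .x)))
def T18 : Tr := (.m .x (.m .x (.m .x .x)))
def T19 : Tr := (.m .x (.m (.m .x .x) .x))
def T20 : Tr := (.m (.m .x .x) (.m .x .x))
def T21 : Tr := (.m .z (.m .x (.m .x (.m .x .x))))
def T22 : Tr := (.m .z (.m .x (.m (.m .x .x) .x)))
def T23 : Tr := (.m .z (.m (.m .x .x) (.m .x .x)))
def T24 : Tr := (.m .x (.m .z (.m (.m .x .x) .x)))
def T25 : Tr := (.m .z (.m .z (.m .x (.m .x .x))))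
def T26 : Tr := (.m .x (.m .x (.m .x (.m .x .x))))
def T27 : Tr := (.m .x (.m .x (.m (.m .x .x) .x)))
def T28 : Tr := (.m .x (.m (.m .x .x) (.m .x .x)))
def T29 : Tr := (.m (.m .z .x) (.m .x (.m .x (.m .x .x))))
def T30 : Tr := (.m .x (.m .z (.m .x .x)))
def T31 : Tr := (.m .x (.m .z (.m .x (.m .x .x))))

def c_rrr : Cert := (.node [⟨.x, .z, (.node (.ofNat 0) (.node (.ofNat 0) .nil .nil (K (.negSucc 354488675)) (K (.ofNat 1049682498))) (.node (.ofNat 0) .nil .nil (K (.negSucc 1254100085)) (K (.ofNat 147896112))) (.node (.ofNat 0) (K (.ofNat 454639494)) (K (.negSucc 1189478135)) .nil .nil) (.node (.ofNat 0) (K (.ofNat 894062888)) (K (.negSucc 175958357)) .nil .nil))⟩,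
  ⟨.z, T0, (.node (.ofNat 0) (K (.ofNat 305280544)) (K (.ofNat 176233110)) .nil .nil)⟩,
  ⟨.z, T1, (.node (.ofNat 0) (K (.ofNat 296511030)) (K (.ofNat 737856)) .nil .nil)⟩,
  ⟨.z, T2, (.node (.ofNat 0) .nil .nil (K (.ofNat 65393790)) .nil)⟩,
  ⟨.x, T0, (.node (.ofNat 0) .nil .nil (K (.ofNat 359081700)) (K (.negSucc 147307439)))⟩,
  ⟨.z, T3, (K (.negSucc 147256751))⟩,
  ⟨.z, T5, (K (.ofNat 201600))⟩,
  ⟨.z, T6, (K (.negSucc 3201407))⟩,
  ⟨.x, T7, (K (.ofNat 3150720))⟩,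
  ⟨.x, T8, (K (.ofNat 10368))⟩] (.node [⟨.x, .z, (.node (.ofNat 0) .nil .nil (K (.ofNat 1512576)) (K (.negSucc 171907781)))⟩,
  ⟨.z, T0, (K (.ofNat 173218758))⟩,
  ⟨.z, T1, (K (.negSucc 1452671))⟩] .nil .nil (.node [⟨.x, .z, (K (.ofNat 1452672))⟩] .nil .nil .nil .nil) (.node [⟨.x, .z, (K (.negSucc 1155024059))⟩] .nil .nil .nil .nil)) (.node [⟨.x, .z, (.node (.ofNat 0) .nil .nil (K (.ofNat 597184764)) (K (.ofNat 240646144)))⟩,
  ⟨.z, T0, (K (.negSucc 489877263))⟩,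
  ⟨.z, T1, (K (.ofNat 330664998))⟩] .nil .nil .nil (.node [⟨.x, .z, (K (.negSucc 837050929))⟩] .nil .nil .nil .nil)) (.node [⟨.x, .z, (.node (.ofNat 0) (K (.negSucc 7617743)) (K (.ofNat 288145062)) .nil .nil)⟩,
  ⟨.z, T2, (K (.negSucc 288893285))⟩,
  ⟨.x, T0, (K (.negSucc 285742565))⟩] (.node [⟨.x, .z, (K (.ofNat 191232))⟩] .nil .nil .nil .nil) (.node [⟨.x, .z, (K (.ofNat 902375058))⟩] .nil .nil .nil .nil) .nil .nil) (.node [⟨.x, .z, (.node (.ofNat 0) (K (.negSucc 415279427)) (K (.negSucc 62827695)) .nil .nil)⟩,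
  ⟨.z, T2, (K (.negSucc 46321807))⟩] (.node [⟨.x, .z, (K (.negSucc 1042789737))⟩] .nil .nil .nil .nil) (.node [⟨.x, .z, (K (.ofNat 270313288))⟩] .nil .nil .nil .nil) .nil .nil))
def c_rrl : Cert := (.node [⟨.x, .z, (.node (.ofNat 0) (.node (.ofNat 0) .nil .nil (K (.negSucc 367856545)) (K (.negSucc 283613601))) (.node (.ofNat 0) .nil .nil (K (.negSucc 357163967)) (K (.ofNat 335892096))) (.node (.ofNat 0) (K (.ofNat 896748588)) (K (.negSucc 446448667)) .nil .nil) (.node (.ofNat 0) (K (.ofNat 344557772)) (K (.negSucc 489707867)) .nil .nil))⟩,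
  ⟨.z, T0, (.node (.ofNat 0) (K (.negSucc 8794783)) (K (.ofNat 494996012)) .nil .nil)⟩,
  ⟨.z, T1, (.node (.ofNat 0) (K (.ofNat 907256268)) (K (.negSucc 100557263)) .nil .nil)⟩,
  ⟨.z, T2, (.node (.ofNat 0) .nil .nil (K (.negSucc 64242203)) .nil)⟩,
  ⟨.x, T0, (.node (.ofNat 0) .nil .nil (K (.ofNat 440782738)) (K (.ofNat 343584554)))⟩,
  ⟨.z, T4, (K (.negSucc 5117471))⟩,
  ⟨.z, T5, (K (.negSucc 40470143))⟩,
  ⟨.z, T6, (K (.negSucc 51470591))⟩,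
  ⟨.x, T7, (K (.ofNat 11582496))⟩] (.node [⟨.x, .z, (.node (.ofNat 0) .nil .nil (K (.ofNat 19700894)) (K (.negSucc 633619606)))⟩,
  ⟨.z, T0, (K (.ofNat 324204908))⟩,
  ⟨.z, T1, (K (.negSucc 17121431))⟩] .nil .nil (.node [⟨.x, .z, (K (.negSucc 761344945))⟩] .nil .nil .nil .nil) (.node [⟨.x, .z, (K (.negSucc 400031401))⟩] .nil .nil .nil .nil)) (.node [⟨.x, .z, (.node (.ofNat 0) .nil .nil (K (.ofNat 801547272)) (K (.ofNat 157053478)))⟩,
  ⟨.z, T0, (K (.negSucc 379396719))⟩,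
  ⟨.z, T1, (K (.ofNat 543968892))⟩] .nil .nil (.node [⟨.x, .z, (K (.negSucc 847521577))⟩] .nil .nil .nil .nil) (.node [⟨.x, .z, (K (.negSucc 401885671))⟩] .nil .nil .nil .nil)) (.node [⟨.x, .z, (.node (.ofNat 0) (K (.negSucc 213211695)) (K (.ofNat 861879530)) .nil .nil)⟩,
  ⟨.z, T2, (K (.negSucc 761838361))⟩,
  ⟨.x, T0, (K (.negSucc 582490339))⟩] (.node [⟨.x, .z, (K (.ofNat 3402208))⟩] .nil .nil .nil .nil) (.node [⟨.x, .z, (K (.negSucc 1086215135))⟩] .nil .nil .nil .nil) .nil .nil) (.node [⟨.x, .z, (.node (.ofNat 0) (K (.negSucc 869206553)) (K (.negSucc 40245983)) .nil .nil)⟩,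
  ⟨.x, T0, (K (.ofNat 523267580))⟩] .nil (.node [⟨.x, .z, (K (.negSucc 409481167))⟩] .nil .nil .nil .nil) .nil .nil))
def c_rrp : Cert := (.node [⟨.x, .z, (.node (.ofNat 0) (.node (.ofNat 0) (K (.negSucc 163614287)) (K (.ofNat 126111648)) .nil .nil) (.node (.ofNat 0) (K (.ofNat 133801248)) (K (.negSucc 105128047)) .nil .nil) .nil .nil)⟩,
  ⟨.z, T2, (.node (.ofNat 0) .nil (K (.ofNat 138194048)) .nil .nil)⟩,
  ⟨.x, T0, (.node (.ofNat 0) (K (.negSucc 167661407)) (K (.negSucc 65254527)) .nil .nil)⟩,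
  ⟨.z, T9, (K (.negSucc 32552207))⟩,
  ⟨.z, T10, (K (.ofNat 2765952))⟩,
  ⟨.x, T3, (K (.negSucc 31874831))⟩,
  ⟨.x, T4, (K (.ofNat 171937200))⟩] (.node [⟨.x, .z, (.node (.ofNat 0) (K (.ofNat 109245936)) (K (.negSucc 17002943)) .nil .nil)⟩,
  ⟨.z, T2, (K (.ofNat 15966720))⟩,
  ⟨.x, T0, (K (.ofNat 11363328))⟩] (.node [⟨.x, .z, (K (.negSucc 2763647))⟩] .nil .nil .nil .nil) (.node [⟨.x, .z, (K (.ofNat 769600258))⟩] .nil .nil .nil .nil) .nil .nil) (.node [⟨.x, .z, (.node (.ofNat 0) .nil (K (.ofNat 111083312)) .nil .nil)⟩,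
  ⟨.x, T0, (K (.ofNat 28687526))⟩] (.node [⟨.x, .z, (K (.ofNat 874438370))⟩] .nil .nil .nil .nil) (.node [⟨.x, .z, (K (.ofNat 221152266))⟩] .nil .nil .nil .nil) .nil .nil) .nil .nil)
def c_rrq : Cert := (.node [⟨.x, .z, (.node (.ofNat 0) (.node (.ofNat 0) (K (.negSucc 536841681)) (K (.negSucc 102292273)) .nil .nil) (.node (.ofNat 0) (K (.ofNat 194030234)) (K (.negSucc 280066351)) .nil .nil) .nil .nil)⟩,
  ⟨.z, T2, (.node (.ofNat 0) .nil (K (.ofNat 5498104)) .nil .nil)⟩,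
  ⟨.x, T0, (.node (.ofNat 0) (K (.ofNat 287357848)) .nil .nil .nil)⟩,
  ⟨.z, T9, (K (.ofNat 97112784))⟩,
  ⟨.z, T10, (K (.ofNat 91494936))⟩,
  ⟨.x, T4, (K (.negSucc 21952839))⟩] (.node [⟨.x, .z, (.node (.ofNat 0) (K (.ofNat 802289720)) (K (.negSucc 125945471)) .nil .nil)⟩] (.node [⟨.x, .z, (K (.ofNat 96043650))⟩] .nil .nil .nil .nil) (.node [⟨.x, .z, (K (.ofNat 1108790856))⟩] .nil .nil .nil .nil) .nil .nil) (.node [⟨.x, .z, (.node (.ofNat 0) (K (.negSucc 883282017)) (K (.negSucc 479640439)) .nil .nil)⟩,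
  ⟨.z, T2, (K (.negSucc 118679865))⟩,
  ⟨.x, T0, (K (.ofNat 742238258))⟩] (.node [⟨.x, .z, (K (.ofNat 1457167188))⟩] .nil .nil .nil .nil) (.node [⟨.x, .z, (K (.ofNat 1033993268))⟩] .nil .nil .nil .nil) .nil .nil) .nil .nil)
def c_rr : Cert := (.node [⟨.x, .z, (.node (.ofNat 0) (.node (.ofNat 0) (.node (.ofNat 0) .nil .nil (K (.negSucc 49383229)) (K (.ofNat 380585628))) (.node (.ofNat 0) .nil .nil .nil (K (.negSucc 501987253))) (.node (.ofNat 0) (K (.negSucc 481396831)) (K (.ofNat 58753832)) .nil .nil) (.node (.ofNat 0) (K (.ofNat 466992680)) (K (.ofNat 207840998)) .nil .nil)) (.node (.ofNat 0) (.node (.ofNat 0) .nil .nil (K (.ofNat 67336738)) (K (.negSucc 272911291))) (.node (.ofNat 0) .nil .nil (K (.ofNat 650522456)) (K (.negSucc 150745103))) (.node (.ofNat 0) (K (.negSucc 509627013)) (K (.ofNat 600483152)) .nil .nil) (.node (.ofNat 0) .nil (K (.negSucc 90224911)) .nil .nil)) (.node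 (.ofNat 0) (.node (.ofNat 0) (K (.ofNat 263997968)) (K (.ofNat 21798790)) .nil .nil) (.node (.ofNat 0) (K (.negSucc 266621711)) .nil .nil .nil) .nil .nil) (.node (.ofNat 0) (.node (.ofNat 0) (K (.negSucc 143109145)) (K (.ofNat 306326486)) .nil .nil) (.node (.ofNat 0) (K (.negSucc 435451919)) (K (.ofNat 218359248)) .nil .nil) .nil .nil))⟩,
  ⟨.z, T0, (.node (.ofNat 0) (.node (.ofNat 0) (K (.ofNat 227204416)) (K (.negSucc 352410431)) .nil .nil) (.node (.ofNat 0) (K (.ofNat 194535072)) (K (.negSucc 225922271)) .nil .nil) .nil .nil)⟩,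
  ⟨.z, T1, (.node (.ofNat 0) (.node (.ofNat 0) (K (.ofNat 198932448)) (K (.negSucc 202644607)) .nil .nil) (.node (.ofNat 0) (K (.negSucc 136858223)) (K (.negSucc 516095)) .nil .nil) .nil .nil)⟩,
  ⟨.z, T2, (.node (.ofNat 0) (.node (.ofNat 0) .nil .nil (K (.ofNat 61906622)) .nil) (.node (.ofNat 0) .nil .nil (K (.negSucc 628475041)) (K (.negSucc 149578079))) (.node (.ofNat 0) (K (.ofNat 153241184)) (K (.negSucc 796725577)) .nil .nil) (.node (.ofNat 0) (K (.ofNat 216875418)) .nil .nil .nil))⟩,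
  ⟨.x, T0, (.node (.ofNat 0) (.node (.ofNat 0) .nil .nil (K (.negSucc 30853159)) .nil) (.node (.ofNat 0) .nil .nil (K (.negSucc 68354533)) (K (.ofNat 774524146))) (.node (.ofNat 0) (K (.ofNat 445787648)) (K (.negSucc 186033047)) .nil .nil) (.node (.ofNat 0) (K (.negSucc 526045047)) (K (.ofNat 82871552)) .nil .nil))⟩,
  ⟨.z, T3, (.node (.ofNat 0) (K (.negSucc 99017855)) (K (.ofNat 88882256)) .nil .nil)⟩,
  ⟨.z, T4, (.node (.ofNat 0) .nil (K (.ofNat 6474384)) .nil .nil)⟩,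
  ⟨.z, T5, (.node (.ofNat 0) (K (.ofNat 160821840)) (K (.ofNat 1727424)) .nil .nil)⟩,
  ⟨.z, T6, (.node (.ofNat 0) (K (.ofNat 121048608)) (K (.ofNat 100224)) .nil .nil)⟩,
  ⟨.x, T7, (.node (.ofNat 0) (K (.ofNat 4275792)) (K (.ofNat 4071888)) .nil .nil)⟩,
  ⟨.x, T8, (.node (.ofNat 0) (K (.ofNat 35609184)) .nil .nil .nil)⟩,
  ⟨.z, T9, (.node (.ofNat 0) .nil .nil (K (.negSucc 99454799)) (K (.ofNat 339511728)))⟩,
  ⟨.z, T10, (.node (.ofNat 0) .nil .nil (K (.negSucc 119485919)) (K (.ofNat 5244672)))⟩,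
  ⟨.x, T3, (.node (.ofNat 0) .nil .nil .nil (K (.ofNat 300595056)))⟩,
  ⟨.x, T4, (.node (.ofNat 0) .nil .nil (K (.ofNat 76793062)) (K (.negSucc 628593249)))⟩,
  ⟨.z, T11, (K (.ofNat 41485632))⟩,
  ⟨.z, T12, (K (.ofNat 9419520))⟩,
  ⟨.z, T13, (K (.negSucc 4603391))⟩,
  ⟨.z, T14, (K (.ofNat 2763648))⟩,
  ⟨.z, T15, (K (.negSucc 3443327))⟩,
  ⟨.z, T16, (K (.negSucc 3708287))⟩] c_rrr c_rrl c_rrp c_rrq)
def c_rlr : Cert := (.node [⟨.x, .z, (.node (.ofNat 0) (.node (.ofNat 0) .nil .nil (K (.negSucc 500349205)) (K (.ofNat 420104774))) (.node (.ofNat 0) .nil .nil (K (.negSucc 433404661)) (K (.ofNat 385158782))) (.node (.ofNat 0) (K (.ofNat 604198968)) (K (.negSucc 362106305)) .nil .nil) (.node (.ofNat 0) (K (.ofNat 553550098)) (K (.negSucc 615193761)) .nil .nil))⟩,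
  ⟨.z, T0, (.node (.ofNat 0) (K (.negSucc 115403551)) (K (.ofNat 603897426)) .nil .nil)⟩,
  ⟨.z, T1, (.node (.ofNat 0) (K (.ofNat 531151370)) (K (.negSucc 11789055)) .nil .nil)⟩,
  ⟨.z, T2, (.node (.ofNat 0) .nil .nil (K (.ofNat 165322092)) .nil)⟩,
  ⟨.x, T0, (.node (.ofNat 0) .nil .nil (K (.ofNat 561575398)) (K (.negSucc 346395285)))⟩,
  ⟨.z, T3, (K (.negSucc 184390813))⟩,
  ⟨.z, T4, (K (.ofNat 10425024))⟩,
  ⟨.z, T5, (K (.ofNat 38550672))⟩,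
  ⟨.z, T6, (K (.ofNat 10534752))⟩,
  ⟨.x, T7, (K (.ofNat 31584240))⟩] (.node [⟨.x, .z, (.node (.ofNat 0) .nil .nil (K (.ofNat 32598346)) (K (.negSucc 348838880)))⟩,
  ⟨.z, T0, (K (.ofNat 427528044))⟩,
  ⟨.z, T1, (K (.negSucc 66364583))⟩] .nil .nil (.node [⟨.x, .z, (K (.ofNat 99820768))⟩] .nil .nil .nil .nil) (.node [⟨.x, .z, (K (.ofNat 378754458))⟩] .nil .nil .nil .nil)) (.node [⟨.x, .z, (.node (.ofNat 0) .nil .nil (K (.ofNat 901231202)) (K (.ofNat 686481198)))⟩,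
  ⟨.z, T0, (K (.negSucc 710557277))⟩,
  ⟨.z, T1, (K (.ofNat 487241580))⟩] .nil .nil .nil (.node [⟨.x, .z, (K (.negSucc 393940053))⟩] .nil .nil .nil .nil)) (.node [⟨.x, .z, (.node (.ofNat 0) (K (.negSucc 61297455)) (K (.ofNat 696961578)) .nil .nil)⟩,
  ⟨.z, T2, (K (.negSucc 683297065))⟩,
  ⟨.x, T0, (K (.negSucc 811751209))⟩] (.node [⟨.x, .z, (K (.negSucc 104079551))⟩] .nil .nil .nil .nil) (.node [⟨.x, .z, (K (.negSucc 392949543))⟩] .nil .nil .nil .nil) .nil .nil) (.node [⟨.x, .z, (.node (.ofNat 0) (K (.negSucc 431129017)) (K (.negSucc 106442221)) .nil .nil)⟩,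
  ⟨.z, T2, (K (.ofNat 242358544))⟩,
  ⟨.x, T0, (K (.ofNat 109191606))⟩] .nil (.node [⟨.x, .z, (K (.negSucc 152523707))⟩] .nil .nil .nil .nil) .nil .nil))
def c_rll : Cert := (.node [⟨.x, .z, (.node (.ofNat 0) (.node (.ofNat 0) .nil .nil (K (.negSucc 131104841)) (K (.negSucc 99384567))) (.node (.ofNat 0) .nil .nil (K (.ofNat 95338342)) (K (.ofNat 211839468))) (.node (.ofNat 0) (K (.ofNat 116596752)) (K (.ofNat 235560870)) .nil .nil) (.node (.ofNat 0) (K (.negSucc 88875067)) (K (.negSucc 170905583)) .nil .nil))⟩,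
  ⟨.z, T0, (.node (.ofNat 0) (K (.negSucc 2549663)) (K (.ofNat 203053680)) .nil .nil)⟩,
  ⟨.z, T1, (.node (.ofNat 0) (K (.ofNat 119305104)) (K (.ofNat 140611144)) .nil .nil)⟩,
  ⟨.z, T2, (.node (.ofNat 0) .nil .nil (K (.negSucc 7318355)) .nil)⟩,
  ⟨.x, T0, (.node (.ofNat 0) .nil .nil (K (.ofNat 208026746)) (K (.ofNat 17186338)))⟩,
  ⟨.z, T3, (K (.ofNat 19683966))⟩,
  ⟨.z, T4, (K (.negSucc 8094815))⟩,
  ⟨.z, T5, (K (.negSucc 14085149))⟩,
  ⟨.z, T6, (K (.negSucc 16065437))⟩,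
  ⟨.x, T7, (K (.ofNat 2429568))⟩,
  ⟨.x, T8, (K (.ofNat 16518528))⟩] (.node [⟨.x, .z, (.node (.ofNat 0) .nil .nil (K (.ofNat 189449180)) (K (.ofNat 161884125)))⟩,
  ⟨.z, T0, (K (.negSucc 179660525))⟩,
  ⟨.z, T1, (K (.negSucc 29422885))⟩] .nil .nil (.node [⟨.x, .z, (K (.ofNat 63071184))⟩] .nil .nil .nil .nil) .nil) (.node [⟨.x, .z, (.node (.ofNat 0) .nil .nil (K (.ofNat 384479158)) (K (.ofNat 275401768)))⟩,
  ⟨.z, T0, (K (.negSucc 381591471))⟩,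
  ⟨.z, T1, (K (.ofNat 216416770))⟩] .nil .nil (.node [⟨.x, .z, (K (.negSucc 119848965))⟩] .nil .nil .nil .nil) (.node [⟨.x, .z, (K (.negSucc 401343519))⟩] .nil .nil .nil .nil)) (.node [⟨.x, .z, (.node (.ofNat 0) (K (.negSucc 349526351)) (K (.ofNat 396721186)) .nil .nil)⟩,
  ⟨.z, T2, (K (.negSucc 526669337))⟩] (.node [⟨.x, .z, (K (.negSucc 189518531))⟩] .nil .nil .nil .nil) (.node [⟨.x, .z, (K (.negSucc 557941979))⟩] .nil .nil .nil .nil) .nil .nil) (.node [⟨.x, .z, (.node (.ofNat 0) (K (.negSucc 377245549)) (K (.negSucc 218818975)) .nil .nil)⟩,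
  ⟨.z, T2, (K (.ofNat 36392852))⟩,
  ⟨.x, T0, (K (.ofNat 488829104))⟩] (.node [⟨.x, .z, (K (.ofNat 222300398))⟩] .nil .nil .nil .nil) (.node [⟨.x, .z, (K (.negSucc 146673121))⟩] .nil .nil .nil .nil) .nil .nil))
def c_rlp : Cert := (.node [⟨.x, .z, (.node (.ofNat 0) (.node (.ofNat 0) (K (.negSucc 269200825)) .nil .nil .nil) (.node (.ofNat 0) (K (.negSucc 336790661)) (K (.ofNat 18359208)) .nil .nil) .nil .nil)⟩,
  ⟨.z, T2, (.node (.ofNat 0) (K (.ofNat 348896788)) .nil .nil .nil)⟩,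
  ⟨.x, T0, (.node (.ofNat 0) (K (.ofNat 687750340)) (K (.ofNat 51430402)) .nil .nil)⟩,
  ⟨.z, T9, (K (.ofNat 85265744))⟩,
  ⟨.x, T4, (K (.negSucc 55377497))⟩] (.node [⟨.x, .z, (.node (.ofNat 0) (K (.ofNat 500957816)) (K (.negSucc 8750405)) .nil .nil)⟩,
  ⟨.z, T2, (K (.ofNat 27813278))⟩,
  ⟨.x, T0, (K (.negSucc 260331525))⟩] (.node [⟨.x, .z, (K (.negSucc 132768969))⟩] .nil .nil .nil .nil) (.node [⟨.x, .z, (K (.negSucc 386245915))⟩] .nil .nil .nil .nil) .nil .nil) (.node [⟨.x, .z, (.node (.ofNat 0) (K (.ofNat 277547470)) (K (.ofNat 587269612)) .nil .nil)⟩] (.node [⟨.x, .z, (K (.negSucc 249462983))⟩] .nil .nil .nil .nil) (.node [⟨.x, .z, (K (.ofNat 187388998))⟩] .nil .nil .nil .nil) .nil .nil) .nil .nil)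
def c_rlq : Cert := (.node [⟨.x, .z, (.node (.ofNat 0) (.node (.ofNat 0) (K (.negSucc 120644729)) (K (.negSucc 242020477)) .nil .nil) (.node (.ofNat 0) (K (.ofNat 124237800)) (K (.negSucc 292955717)) .nil .nil) .nil .nil)⟩,
  ⟨.z, T2, (.node (.ofNat 0) (K (.negSucc 74539439)) (K (.ofNat 43231498)) .nil .nil)⟩,
  ⟨.x, T0, (.node (.ofNat 0) .nil (K (.ofNat 228635294)) .nil .nil)⟩,
  ⟨.z, T9, (K (.ofNat 166508206))⟩,
  ⟨.z, T10, (K (.ofNat 21244566))⟩,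
  ⟨.x, T3, (K (.negSucc 26816255))⟩,
  ⟨.x, T4, (K (.ofNat 39985082))⟩] (.node [⟨.x, .z, (.node (.ofNat 0) (K (.ofNat 950351206)) (K (.negSucc 17504109)) .nil .nil)⟩,
  ⟨.x, T0, (K (.negSucc 502154233))⟩] (.node [⟨.x, .z, (K (.negSucc 297538867))⟩] .nil .nil .nil .nil) (.node [⟨.x, .z, (K (.negSucc 69942627))⟩] .nil .nil .nil .nil) .nil .nil) (.node [⟨.x, .z, (.node (.ofNat 0) (K (.negSucc 387329509)) (K (.negSucc 6530455)) .nil .nil)⟩,
  ⟨.z, T2, (K (.ofNat 83692176))⟩,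
  ⟨.x, T0, (K (.ofNat 188247592))⟩] (.node [⟨.x, .z, (K (.ofNat 505896436))⟩] .nil .nil .nil .nil) (.node [⟨.x, .z, (K (.ofNat 745811308))⟩] .nil .nil .nil .nil) .nil .nil) .nil .nil)
def c_rl : Cert := (.node [⟨.x, .z, (.node (.ofNat 0) (.node (.ofNat 0) (.node (.ofNat 0) .nil .nil (K (.ofNat 25442660)) (K (.negSucc 325027883))) (.node (.ofNat 0) .nil .nil (K (.ofNat 43288392)) (K (.negSucc 314123163))) (.node (.ofNat 0) (K (.ofNat 66041522)) (K (.negSucc 12024903)) .nil .nil) (.node (.ofNat 0) (K (.negSucc 502848799)) (K (.ofNat 590855850)) .nil .nil)) (.node (.ofNat 0) (.node (.ofNat 0) .nil .nil (K (.negSucc 80664773)) (K (.negSucc 274115131))) (.node (.ofNat 0) .nil .nil (K (.negSucc 32683051)) (K (.negSucc 56580281))) (.node (.ofNat 0) (K (.negSucc 109621915)) (K (.negSucc 165800223)) .nil .nil) (.node (.ofNat 0) .nil (K (.ofNat 144458392)) .nil .nil)) (.node (.ofNat 0) (.node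 (.ofNat 0) (K (.negSucc 129587373)) (K (.ofNat 515941972)) .nil .nil) (.node (.ofNat 0) (K (.ofNat 512505278)) .nil .nil .nil) .nil .nil) (.node (.ofNat 0) (.node (.ofNat 0) .nil (K (.ofNat 610932442)) .nil .nil) (.node (.ofNat 0) (K (.ofNat 157601104)) (K (.negSucc 57040537)) .nil .nil) .nil .nil))⟩,
  ⟨.z, T0, (.node (.ofNat 0) (.node (.ofNat 0) (K (.ofNat 138502416)) (K (.negSucc 87597405)) .nil .nil) (.node (.ofNat 0) (K (.negSucc 171627629)) (K (.ofNat 54665482)) .nil .nil) .nil .nil)⟩,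
  ⟨.z, T1, (.node (.ofNat 0) (.node (.ofNat 0) (K (.ofNat 44909714)) (K (.negSucc 60892485)) .nil .nil) (.node (.ofNat 0) (K (.negSucc 26056749)) (K (.ofNat 25306064)) .nil .nil) .nil .nil)⟩,
  ⟨.z, T2, (.node (.ofNat 0) (.node (.ofNat 0) .nil .nil (K (.negSucc 86069505)) (K (.negSucc 392206917))) (.node (.ofNat 0) .nil .nil .nil (K (.ofNat 149237576))) (.node (.ofNat 0) (K (.ofNat 94777134)) (K (.negSucc 171056509)) .nil .nil) (.node (.ofNat 0) .nil (K (.negSucc 289709301)) .nil .nil))⟩,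
  ⟨.x, T0, (.node (.ofNat 0) (.node (.ofNat 0) .nil .nil (K (.negSucc 71810679)) (K (.negSucc 45617941))) (.node (.ofNat 0) .nil .nil .nil (K (.ofNat 167804478))) (.node (.ofNat 0) (K (.negSucc 52053281)) (K (.ofNat 49637950)) .nil .nil) (.node (.ofNat 0) (K (.ofNat 105408108)) (K (.negSucc 155008503)) .nil .nil))⟩,
  ⟨.z, T3, (.node (.ofNat 0) (K (.negSucc 91914333)) (K (.ofNat 123053214)) .nil .nil)⟩,
  ⟨.z, T4, (.node (.ofNat 0) .nil (K (.negSucc 21328415)) .nil .nil)⟩,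
  ⟨.z, T5, (.node (.ofNat 0) (K (.ofNat 104174494)) (K (.negSucc 19543599)) .nil .nil)⟩,
  ⟨.z, T6, (.node (.ofNat 0) (K (.ofNat 81752110)) (K (.ofNat 9988064)) .nil .nil)⟩,
  ⟨.x, T7, (.node (.ofNat 0) (K (.negSucc 5381855)) (K (.negSucc 24849215)) .nil .nil)⟩,
  ⟨.x, T8, (.node (.ofNat 0) (K (.ofNat 28747584)) .nil .nil .nil)⟩,
  ⟨.z, T9, (.node (.ofNat 0) .nil .nil (K (.negSucc 11675447)) (K (.ofNat 201315262)))⟩,
  ⟨.z, T10, (.node (.ofNat 0) .nil .nil .nil (K (.ofNat 85593102)))⟩,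
  ⟨.x, T4, (.node (.ofNat 0) .nil .nil (K (.ofNat 4090038)) (K (.negSucc 159138437)))⟩,
  ⟨.z, T11, (K (.ofNat 34505184))⟩,
  ⟨.z, T12, (K (.negSucc 24608927))⟩,
  ⟨.z, T13, (K (.negSucc 324863))⟩,
  ⟨.z, T14, (K (.ofNat 4158144))⟩,
  ⟨.z, T15, (K (.negSucc 3305087))⟩] c_rlr c_rll c_rlp c_rlq)
def c_rpr : Cert := (.node [⟨.x, .z, (.node (.ofNat 0) (.node (.ofNat 0) (K (.ofNat 103208032)) (K (.ofNat 25089520)) .nil .nil) (.node (.ofNat 0) (K (.ofNat 73997360)) (K (.negSucc 31530191)) .nil .nil) .nil .nil)⟩,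
  ⟨.z, T2, (.node (.ofNat 0) (K (.negSucc 34112671)) (K (.ofNat 30277392)) .nil .nil)⟩,
  ⟨.x, T0, (.node (.ofNat 0) (K (.ofNat 7058352)) (K (.ofNat 73599200)) .nil .nil)⟩,
  ⟨.z, T9, (K (.ofNat 2150784))⟩,
  ⟨.z, T10, (K (.ofNat 2150784))⟩,
  ⟨.x, T4, (K (.negSucc 41171023))⟩] (.node [⟨.x, .z, (.node (.ofNat 0) (K (.ofNat 13369248)) (K (.ofNat 14300064)) .nil .nil)⟩,
  ⟨.z, T2, (K (.negSucc 13826591))⟩,
  ⟨.x, T0, (K (.negSucc 13826591))⟩] .nil (.node [⟨.x, .z, (K (.negSucc 14032647))⟩] .nil .nil .nil .nil) .nil .nil) (.node [⟨.x, .z, (.node (.ofNat 0) (K (.ofNat 109303502)) (K (.negSucc 129711857)) .nil .nil)⟩,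
  ⟨.z, T2, (K (.ofNat 2694882))⟩,
  ⟨.x, T0, (K (.ofNat 348307666))⟩] (.node [⟨.x, .z, (K (.ofNat 172907616))⟩] .nil .nil .nil .nil) (.node [⟨.x, .z, (K (.ofNat 645580352))⟩] .nil .nil .nil .nil) .nil .nil) .nil .nil)
def c_rpl : Cert := (.node [⟨.x, .z, (.node (.ofNat 0) (.node (.ofNat 0) (K (.ofNat 120473804)) (K (.ofNat 106308122)) .nil .nil) (.node (.ofNat 0) .nil (K (.negSucc 102070631)) .nil .nil) .nil .nil)⟩,
  ⟨.z, T2, (.node (.ofNat 0) (K (.negSucc 86991263)) .nil .nil .nil)⟩,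
  ⟨.x, T0, (.node (.ofNat 0) (K (.ofNat 37009558)) (K (.negSucc 20931767)) .nil .nil)⟩,
  ⟨.z, T9, (K (.ofNat 141945856))⟩,
  ⟨.z, T10, (K (.negSucc 2802719))⟩] (.node [⟨.x, .z, (.node (.ofNat 0) .nil (K (.negSucc 63358895)) .nil .nil)⟩,
  ⟨.x, T0, (K (.negSucc 27087051))⟩] (.node [⟨.x, .z, (K (.ofNat 114679022))⟩] .nil .nil .nil .nil) (.node [⟨.x, .z, (K (.ofNat 444096168))⟩] .nil .nil .nil .nil) .nil .nil) (.node [⟨.x, .z, (.node (.ofNat 0) (K (.ofNat 456953782)) (K (.ofNat 309330926)) .nil .nil)⟩,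
  ⟨.z, T2, (K (.ofNat 300823534))⟩,
  ⟨.x, T0, (K (.negSucc 130644229))⟩] .nil (.node [⟨.x, .z, (K (.ofNat 489191150))⟩] .nil .nil .nil .nil) .nil .nil) .nil .nil)
def c_rpp : Cert := (.node [⟨.x, T9, (K (.ofNat 51430256))⟩,
  ⟨.x, T10, (K (.negSucc 2275199))⟩] .nil .nil .nil .nil)
def c_rpq : Cert := (.node [⟨.x, T9, (K (.negSucc 36488351))⟩] .nil .nil .nil .nil)
def c_rp : Cert := (.node [⟨.x, .z, (.node (.ofNat 0) (.node (.ofNat 0) (.node (.ofNat 0) (K (.negSucc 209465807)) (K (.negSucc 108675599)) .nil .nil) (.node (.ofNat 0) (K (.negSucc 145731967)) (K (.ofNat 68330448)) .nil .nil) .nil .nil) (.node (.ofNat 0) (.node (.ofNat 0) (K (.negSucc 104584639)) (K (.negSucc 273303343)) .nil .nil) (.node (.ofNat 0) (K (.negSucc 38213647)) (K (.ofNat 71004144)) .nil .nil) .nil .nil) .nil .nil)⟩,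
  ⟨.z, T2, (.node (.ofNat 0) (.node (.ofNat 0) .nil (K (.ofNat 239092672)) .nil .nil) (.node (.ofNat 0) .nil (K (.negSucc 65234351)) .nil .nil) .nil .nil)⟩,
  ⟨.x, T0, (.node (.ofNat 0) (.node (.ofNat 0) (K (.ofNat 73116048)) (K (.ofNat 302451488)) .nil .nil) (.node (.ofNat 0) (K (.ofNat 56747856)) (K (.negSucc 128218847)) .nil .nil) .nil .nil)⟩,
  ⟨.z, T9, (.node (.ofNat 0) (K (.negSucc 61385695)) (K (.negSucc 315647)) .nil .nil)⟩,
  ⟨.z, T10, (.node (.ofNat 0) (K (.ofNat 2646048)) (K (.negSucc 22621823)) .nil .nil)⟩,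
  ⟨.x, T3, (.node (.ofNat 0) (K (.negSucc 9864335)) .nil .nil .nil)⟩,
  ⟨.x, T4, (.node (.ofNat 0) (K (.ofNat 4343648)) (K (.ofNat 59978352)) .nil .nil)⟩,
  ⟨.x, T9, (.node (.ofNat 0) .nil .nil (K (.ofNat 16924040)) (K (.negSucc 51524487)))⟩,
  ⟨.x, T10, (.node (.ofNat 0) .nil .nil (K (.negSucc 13617215)) (K (.negSucc 18842687)))⟩,
  ⟨.z, T18, (K (.ofNat 557568))⟩,
  ⟨.z, T19, (K (.negSucc 20312063))⟩,
  ⟨.z, T20, (K (.ofNat 2775168))⟩,
  ⟨.x, T12, (K (.negSucc 21280895))⟩,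
  ⟨.x, T30, (K (.negSucc 642815))⟩] c_rpr c_rpl c_rpp c_rpq)
def c_rqr : Cert := (.node [⟨.x, .z, (.node (.ofNat 0) (.node (.ofNat 0) (K (.ofNat 94854820)) (K (.negSucc 38148995)) .nil .nil) (.node (.ofNat 0) (K (.negSucc 54815151)) (K (.negSucc 73512631)) .nil .nil) .nil .nil)⟩,
  ⟨.x, T0, (.node (.ofNat 0) .nil (K (.negSucc 11358349)) .nil .nil)⟩,
  ⟨.z, T10, (K (.negSucc 54063527))⟩,
  ⟨.x, T4, (K (.ofNat 311384432))⟩] (.node [⟨.x, .z, (.node (.ofNat 0) (K (.negSucc 491916529)) (K (.ofNat 689890550)) .nil .nil)⟩,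
  ⟨.z, T2, (K (.ofNat 330796402))⟩] (.node [⟨.x, .z, (K (.ofNat 1107307992))⟩] .nil .nil .nil .nil) (.node [⟨.x, .z, (K (.ofNat 529247240))⟩] .nil .nil .nil .nil) .nil .nil) (.node [⟨.x, .z, (.node (.ofNat 0) (K (.negSucc 976157009)) .nil .nil .nil)⟩,
  ⟨.z, T2, (K (.negSucc 7116921))⟩,
  ⟨.x, T0, (K (.ofNat 761457958))⟩] (.node [⟨.x, .z, (K (.ofNat 460495324))⟩] .nil .nil .nil .nil) .nil .nil .nil) .nil .nil)
def c_rql : Cert := (.node [⟨.x, .z, (.node (.ofNat 0) (.node (.ofNat 0) (K (.ofNat 410338352)) (K (.negSucc 635064953)) .nil .nil) (.node (.ofNat 0) (K (.negSucc 270872489)) (K (.negSucc 260200119)) .nil .nil) .nil .nil)⟩,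
  ⟨.z, T2, (.node (.ofNat 0) .nil (K (.ofNat 271662504)) .nil .nil)⟩,
  ⟨.x, T0, (.node (.ofNat 0) (K (.negSucc 212121981)) .nil .nil .nil)⟩,
  ⟨.z, T9, (K (.negSucc 173815895))⟩,
  ⟨.z, T10, (K (.negSucc 27312991))⟩] (.node [⟨.x, .z, (.node (.ofNat 0) (K (.negSucc 728055079)) .nil .nil .nil)⟩] (.node [⟨.x, .z, (K (.ofNat 100125702))⟩] .nil .nil .nil .nil) (.node [⟨.x, .z, (K (.negSucc 183705094))⟩] .nil .nil .nil .nil) .nil .nil) (.node [⟨.x, .z, (.node (.ofNat 0) (K (.ofNat 652809466)) (K (.negSucc 55053665)) .nil .nil)⟩,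
  ⟨.x, T0, (K (.negSucc 215416727))⟩] (.node [⟨.x, .z, (K (.negSucc 502199343))⟩] .nil .nil .nil .nil) (.node [⟨.x, .z, (K (.negSucc 518411849))⟩] .nil .nil .nil .nil) .nil .nil) .nil .nil)
def c_rqp : Cert := (.node [⟨.x, T9, (K (.negSucc 88319239))⟩,
  ⟨.x, T10, (K (.negSucc 3102803))⟩] .nil .nil .nil .nil)
def c_rqq : Cert := (.node [⟨.x, T9, (K (.negSucc 29053871))⟩,
  ⟨.x, T10, (K (.negSucc 23191375))⟩] .nil .nil .nil .nil)
def c_rq : Cert := (.node [⟨.x, .z, (.node (.ofNat 0) (.node (.ofNat 0) (.node (.ofNat 0) (K (.negSucc 255457191)) (K (.ofNat 169116880)) .nil .nil) (.node (.ofNat 0) (K (.ofNat 83265024)) (K (.negSucc 439196513)) .nil .nil) .nil .nil) (.node (.ofNat 0) (.node (.ofNat 0) (K (.ofNat 128451790)) (K (.ofNat 337334264)) .nil .nil) (.node (.ofNat 0) (K (.ofNat 5770201)) (K (.ofNat 208370088)) .nil .nil) .nil .nil) .nil .nil)⟩,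
  ⟨.z, T2, (.node (.ofNat 0) (.node (.ofNat 0) (K (.ofNat 121300514)) .nil .nil .nil) (.node (.ofNat 0) (K (.negSucc 61495823)) (K (.negSucc 197744823)) .nil .nil) .nil .nil)⟩,
  ⟨.x, T0, (.node (.ofNat 0) (.node (.ofNat 0) .nil (K (.negSucc 263908351)) .nil .nil) (.node (.ofNat 0) (K (.negSucc 233965743)) .nil .nil .nil) .nil .nil)⟩,
  ⟨.z, T10, (.node (.ofNat 0) .nil (K (.negSucc 33878623)) .nil .nil)⟩,
  ⟨.x, T4, (.node (.ofNat 0) (K (.ofNat 31970976)) (K (.negSucc 243319935)) .nil .nil)⟩,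
  ⟨.x, T9, (.node (.ofNat 0) .nil .nil (K (.ofNat 19805355)) (K (.ofNat 68876024)))⟩,
  ⟨.x, T10, (.node (.ofNat 0) .nil .nil .nil (K (.negSucc 280479515)))⟩,
  ⟨.z, T19, (K (.negSucc 16733087))⟩,
  ⟨.z, T20, (K (.negSucc 3037823))⟩] c_rqr c_rql c_rqp c_rqq)
def c_r : Cert := (.node [⟨.x, .z, (.node (.ofNat 0) (.node (.ofNat 0) (.node (.ofNat 0) (.node (.ofNat 0) .nil .nil (K (.negSucc 72554775)) (K (.ofNat 109677994))) (.node (.ofNat 0) .nil .nil (K (.negSucc 284400877)) (K (.negSucc 45614035))) (.node (.ofNat 0) (K (.ofNat 40120752)) (K (.negSucc 82595445)) .nil .nil) (.node (.ofNat 0) .nil (K (.negSucc 269132643)) .nil .nil)) (.node (.ofNat 0) (.node (.ofNat 0) .nil .nil (K (.negSucc 289188103)) (K (.negSucc 41613451))) (.node (.ofNat 0) .nil .nil (K (.negSucc 74500927)) (K (.negSucc 54219095))) (.node (.ofNat 0) (K (.ofNat 420999996)) .nil .nil .nil) (.node (.ofNat 0) (K (.negSucc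 361388789)) (K (.negSucc 3553271)) .nil .nil)) (.node (.ofNat 0) (.node (.ofNat 0) (K (.negSucc 141891551)) (K (.negSucc 56997163)) .nil .nil) (.node (.ofNat 0) (K (.ofNat 158820208)) .nil .nil .nil) .nil .nil) (.node (.ofNat 0) (.node (.ofNat 0) .nil (K (.negSucc 176032353)) .nil .nil) (.node (.ofNat 0) (K (.ofNat 310335622)) .nil .nil .nil) .nil .nil)) (.node (.ofNat 0) (.node (.ofNat 0) (.node (.ofNat 0) .nil .nil (K (.negSucc 160378735)) (K (.ofNat 387447364))) (.node (.ofNat 0) .nil .nil (K (.ofNat 9359870)) (K (.ofNat 326735412))) (.node (.ofNat 0) (K (.negSucc 56639871)) (K (.ofNat 206410424)) .nil .nil) (.node (.ofNat 0) (K (.ofNat 199079288)) .nil .nil .nil)) (.node (.ofNat 0) (.node (.ofNat 0) .nil .nil (K (.negSucc 150143833)) (K (.ofNat 343543970))) (.node (.ofNat 0) .nil .nil .nil (K (.negSucc 177121007))) (.node (.ofNat 0) .nil (K (.negSucc 417311331)) .nil .nil) (.node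 (.ofNat 0) (K (.negSucc 188269289)) (K (.negSucc 17150735)) .nil .nil)) (.node (.ofNat 0) (.node (.ofNat 0) (K (.negSucc 299128961)) (K (.negSucc 543609845)) .nil .nil) (.node (.ofNat 0) (K (.negSucc 594854259)) (K (.negSucc 567411875)) .nil .nil) .nil .nil) (.node (.ofNat 0) (.node (.ofNat 0) (K (.ofNat 79279042)) (K (.negSucc 158955957)) .nil .nil) (.node (.ofNat 0) (K (.ofNat 62319890)) (K (.ofNat 56973168)) .nil .nil) .nil .nil)) (.node (.ofNat 0) (.node (.ofNat 0) (.node (.ofNat 0) (K (.ofNat 11995360)) (K (.negSucc 57136607)) .nil .nil) (.node (.ofNat 0) (K (.ofNat 255136950)) (K (.ofNat 152915272)) .nil .nil) .nil .nil) (.node (.ofNat 0) (.node (.ofNat 0) (K (.negSucc 144751355)) (K (.ofNat 22001014)) .nil .nil) (.node (.ofNat 0) (K (.negSucc 91319359)) (K (.negSucc 116156487)) .nil .nil) .nil .nil) .nil .nil) (.node (.ofNat 0) (.node (.ofNat 0) (.node (.ofNat 0) (K (.ofNat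 330519266)) (K (.negSucc 163066445)) .nil .nil) (.node (.ofNat 0) (K (.ofNat 275647174)) (K (.ofNat 13825424)) .nil .nil) .nil .nil) (.node (.ofNat 0) (.node (.ofNat 0) (K (.negSucc 344897271)) (K (.negSucc 69603863)) .nil .nil) (.node (.ofNat 0) (K (.negSucc 201993391)) (K (.ofNat 25672504)) .nil .nil) .nil .nil) .nil .nil))⟩,
  ⟨.z, T0, (.node (.ofNat 0) (.node (.ofNat 0) (.node (.ofNat 0) (K (.negSucc 7427871)) (K (.ofNat 55800512)) .nil .nil) (.node (.ofNat 0) (K (.negSucc 127073391)) (K (.ofNat 106759744)) .nil .nil) .nil .nil) (.node (.ofNat 0) (.node (.ofNat 0) (K (.ofNat 358582408)) (K (.negSucc 1302999)) .nil .nil) (.node (.ofNat 0) (K (.ofNat 15236224)) (K (.negSucc 25957623)) .nil .nil) .nil .nil) .nil .nil)⟩,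
  ⟨.z, T1, (.node (.ofNat 0) (.node (.ofNat 0) (.node (.ofNat 0) (K (.ofNat 193166704)) (K (.negSucc 158727839)) .nil .nil) (.node (.ofNat 0) (K (.ofNat 138285936)) (K (.ofNat 74019152)) .nil .nil) .nil .nil) (.node (.ofNat 0) (.node (.ofNat 0) (K (.ofNat 65327424)) (K (.ofNat 16732736)) .nil .nil) (.node (.ofNat 0) (K (.negSucc 5909231)) (K (.ofNat 4165632)) .nil .nil) .nil .nil) .nil .nil)⟩,
  ⟨.z, T2, (.node (.ofNat 0) (.node (.ofNat 0) (.node (.ofNat 0) .nil .nil (K (.ofNat 39279824)) .nil) (.node (.ofNat 0) .nil .nil (K (.ofNat 315182208)) (K (.ofNat 150407560))) (.node (.ofNat 0) (K (.ofNat 30576960)) .nil .nil .nil) (.node (.ofNat 0) .nil (K (.ofNat 135243408)) .nil .nil)) (.node (.ofNat 0) (.node (.ofNat 0) .nil .nil (K (.ofNat 386820624)) (K (.ofNat 521169136))) (.node (.ofNat 0) .nil .nil (K (.ofNat 56657480)) (K (.ofNat 176910192))) (.node (.ofNat 0) (K (.negSucc 362599167))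 .nil .nil .nil) (.node (.ofNat 0) (K (.ofNat 309912400)) (K (.ofNat 11391216)) .nil .nil)) (.node (.ofNat 0) (.node (.ofNat 0) (K (.ofNat 69095360)) (K (.ofNat 179640304)) .nil .nil) (.node (.ofNat 0) (K (.negSucc 185810271)) .nil .nil .nil) .nil .nil) (.node (.ofNat 0) (.node (.ofNat 0) (K (.negSucc 125385407)) .nil .nil .nil) (.node (.ofNat 0) (K (.negSucc 300837375)) .nil .nil .nil) .nil .nil))⟩,
  ⟨.x, T0, (.node (.ofNat 0) (.node (.ofNat 0) (.node (.ofNat 0) .nil .nil (K (.ofNat 33316424)) (K (.ofNat 82575736))) (.node (.ofNat 0) .nil .nil (K (.ofNat 372950174)) (K (.ofNat 283996408))) (.node (.ofNat 0) (K (.negSucc 7058351)) .nil .nil .nil) (.node (.ofNat 0) (K (.negSucc 215549693)) .nil .nil .nil)) (.node (.ofNat 0) (.node (.ofNat 0) .nil .nil (K (.ofNat 301242174)) (K (.ofNat 110710536))) (.node (.ofNat 0) .nil .nil (K (.ofNat 346301798)) (K (.ofNat 60373504))) (.node (.ofNat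 0) .nil (K (.ofNat 168634030)) .nil .nil) (.node (.ofNat 0) .nil (K (.ofNat 217760)) .nil .nil)) (.node (.ofNat 0) (.node (.ofNat 0) (K (.ofNat 141891552)) (K (.negSucc 248160639)) .nil .nil) (.node (.ofNat 0) .nil (K (.negSucc 93786287)) .nil .nil) .nil .nil) (.node (.ofNat 0) (.node (.ofNat 0) (K (.negSucc 403537517)) (K (.negSucc 85584877)) .nil .nil) (.node (.ofNat 0) (K (.negSucc 310965245)) (K (.negSucc 61423919)) .nil .nil) .nil .nil))⟩,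
  ⟨.z, T3, (.node (.ofNat 0) (.node (.ofNat 0) (K (.ofNat 122668480)) .nil .nil .nil) (.node (.ofNat 0) (K (.negSucc 52643503)) (K (.negSucc 61310447)) .nil .nil) .nil .nil)⟩,
  ⟨.z, T5, (.node (.ofNat 0) (.node (.ofNat 0) (K (.ofNat 69095360)) (K (.ofNat 30026944)) .nil .nil) (.node (.ofNat 0) (K (.ofNat 27632880)) (K (.negSucc 1875455)) .nil .nil) .nil .nil)⟩,
  ⟨.z, T6, (.node (.ofNat 0) (.node (.ofNat 0) (K (.ofNat 18449840)) (K (.ofNat 7946560)) .nil .nil) (.node (.ofNat 0) (K (.ofNat 11273184)) (K (.ofNat 31104)) .nil .nil) .nil .nil)⟩,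
  ⟨.x, T7, (.node (.ofNat 0) (.node (.ofNat 0) (K (.ofNat 26529408)) (K (.ofNat 26026992)) .nil .nil) (.node (.ofNat 0) (K (.ofNat 21660336)) (K (.ofNat 3048768)) .nil .nil) .nil .nil)⟩,
  ⟨.x, T8, (.node (.ofNat 0) (.node (.ofNat 0) .nil (K (.negSucc 29641535)) .nil .nil) (.node (.ofNat 0) (K (.negSucc 14859935)) (K (.negSucc 4450751)) .nil .nil) .nil .nil)⟩,
  ⟨.z, T9, (.node (.ofNat 0) (.node (.ofNat 0) .nil .nil (K (.negSucc 71326351)) .nil) (.node (.ofNat 0) .nil .nil (K (.negSucc 193906647)) (K (.negSucc 1911743))) (.node (.ofNat 0) .nil (K (.negSucc 205621303)) .nil .nil) (.node (.ofNat 0) (K (.ofNat 217412296)) (K (.ofNat 133152)) .nil .nil))⟩,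
  ⟨.z, T10, (.node (.ofNat 0) (.node (.ofNat 0) .nil .nil (K (.negSucc 51836519)) .nil) (.node (.ofNat 0) .nil .nil (K (.negSucc 176895215)) (K (.negSucc 6494975))) (.node (.ofNat 0) (K (.ofNat 7123312)) (K (.negSucc 151705023)) .nil .nil) (.node (.ofNat 0) (K (.ofNat 175111248)) (K (.ofNat 12124224)) .nil .nil))⟩,
  ⟨.x, T3, (.node (.ofNat 0) .nil .nil (.node (.ofNat 0) (K (.negSucc 67519295)) .nil .nil .nil) (.node (.ofNat 0) .nil (K (.ofNat 3280416)) .nil .nil))⟩,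
  ⟨.x, T4, (.node (.ofNat 0) (.node (.ofNat 0) .nil .nil (K (.ofNat 39279824)) .nil) (.node (.ofNat 0) .nil .nil (K (.ofNat 142318160)) (K (.ofNat 116747504))) (.node (.ofNat 0) (K (.ofNat 30576960)) (K (.ofNat 142630224)) .nil .nil) (.node (.ofNat 0) (K (.negSucc 139174623)) (K (.ofNat 16932976)) .nil .nil))⟩,
  ⟨.z, T11, (.node (.ofNat 0) (K (.ofNat 13937328)) (K (.negSucc 5384447)) .nil .nil)⟩,
  ⟨.z, T12, (.node (.ofNat 0) (K (.negSucc 7805087)) (K (.ofNat 9470016)) .nil .nil)⟩,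
  ⟨.z, T30, (.node (.ofNat 0) (K (.negSucc 373247)) .nil .nil .nil)⟩,
  ⟨.z, T14, (.node (.ofNat 0) (K (.ofNat 457344)) (K (.negSucc 473471)) .nil .nil)⟩,
  ⟨.z, T15, (.node (.ofNat 0) (K (.negSucc 3506687)) (K (.ofNat 1600128)) .nil .nil)⟩,
  ⟨.z, T16, (.node (.ofNat 0) (K (.negSucc 1980287)) (K (.ofNat 1980288)) .nil .nil)⟩,
  ⟨.x, T9, (.node (.ofNat 0) .nil .nil (.node (.ofNat 0) .nil .nil (K (.ofNat 1617543)) (K (.negSucc 148901480))) (.node (.ofNat 0) .nil .nil (K (.negSucc 83347165)) (K (.negSucc 5614905))))⟩,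
  ⟨.x, T10, (.node (.ofNat 0) .nil .nil (.node (.ofNat 0) .nil .nil (K (.ofNat 38313975)) (K (.ofNat 248255067))) (.node (.ofNat 0) .nil .nil (K (.ofNat 10040160)) (K (.negSucc 9485567))))⟩,
  ⟨.z, T18, (.node (.ofNat 0) .nil .nil (K (.ofNat 11611008)) (K (.ofNat 282816)))⟩,
  ⟨.z, T19, (.node (.ofNat 0) .nil .nil (K (.negSucc 15223967)) (K (.negSucc 5147135)))⟩,
  ⟨.z, T20, (.node (.ofNat 0) .nil .nil .nil (K (.negSucc 2768255)))⟩,
  ⟨.x, T11, (.node (.ofNat 0) .nil .nil .nil (K (.negSucc 2500415)))⟩,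
  ⟨.x, T12, (.node (.ofNat 0) .nil .nil .nil (K (.negSucc 7094015)))⟩,
  ⟨.z, T21, (K (.negSucc 746495))⟩,
  ⟨.z, T22, (K (.negSucc 238463))⟩,
  ⟨.z, T31, (K (.negSucc 41471))⟩,
  ⟨.x, T25, (K (.ofNat 207360))⟩] c_rr c_rl c_rp c_rq)
def c_lrr : Cert := (.node [⟨.x, .z, (.node (.ofNat 0) (.node (.ofNat 0) .nil .nil (K (.ofNat 163873704)) .nil) (.node (.ofNat 0) .nil .nil (K (.ofNat 40912652)) (K (.negSucc 15856147))) (.node (.ofNat 0) (K (.negSucc 158179393)) (K (.negSucc 161467897)) .nil .nil) (.node (.ofNat 0) (K (.ofNat 31416922)) (K (.ofNat 61448034)) .nil .nil))⟩,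
  ⟨.z, T0, (.node (.ofNat 0) (K (.negSucc 26919951)) (K (.negSucc 72184961)) .nil .nil)⟩,
  ⟨.z, T1, (.node (.ofNat 0) (K (.negSucc 117137313)) (K (.negSucc 11279519)) .nil .nil)⟩,
  ⟨.z, T2, (.node (.ofNat 0) .nil .nil (K (.negSucc 93222261)) (K (.negSucc 97207547)))⟩,
  ⟨.x, T0, (.node (.ofNat 0) .nil .nil (K (.negSucc 179845903)) (K (.ofNat 181400708)))⟩,
  ⟨.z, T3, (K (.ofNat 126909296))⟩,
  ⟨.z, T5, (K (.negSucc 40437023))⟩,
  ⟨.z, T6, (K (.negSucc 59069759))⟩,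
  ⟨.x, T7, (K (.negSucc 1196063))⟩] (.node [⟨.x, .z, (.node (.ofNat 0) .nil .nil (K (.ofNat 131646212)) (K (.ofNat 208435314)))⟩,
  ⟨.z, T0, (K (.negSucc 215462801))⟩,
  ⟨.z, T1, (K (.negSucc 12993119))⟩] .nil .nil (.node [⟨.x, .z, (K (.negSucc 35878895))⟩] .nil .nil .nil .nil) (.node [⟨.x, .z, (K (.negSucc 281219451))⟩] .nil .nil .nil .nil)) (.node [⟨.x, .z, (.node (.ofNat 0) .nil .nil (K (.ofNat 112820874)) (K (.ofNat 384635135)))⟩,
  ⟨.z, T0, (K (.negSucc 182196479))⟩,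
  ⟨.z, T1, (K (.ofNat 12138502))⟩] .nil .nil (.node [⟨.x, .z, (K (.negSucc 151131355))⟩] .nil .nil .nil .nil) (.node [⟨.x, .z, (K (.negSucc 334093535))⟩] .nil .nil .nil .nil)) (.node [⟨.x, .z, (.node (.ofNat 0) (K (.ofNat 97377984)) (K (.ofNat 15310368)) .nil .nil)⟩,
  ⟨.x, T0, (K (.negSucc 118113519))⟩] (.node [⟨.x, .z, (K (.negSucc 106134767))⟩] .nil .nil .nil .nil) (.node [⟨.x, .z, (K (.ofNat 284394588))⟩] .nil .nil .nil .nil) .nil .nil) (.node [⟨.x, .z, (.node (.ofNat 0) (K (.ofNat 154498508)) (K (.negSucc 38119287)) .nil .nil)⟩,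
  ⟨.z, T2, (K (.ofNat 375911640))⟩,
  ⟨.x, T0, (K (.ofNat 326663398))⟩] .nil (.node [⟨.x, .z, (K (.ofNat 373728432))⟩] .nil .nil .nil .nil) .nil .nil))
def c_lrl : Cert := (.node [⟨.x, .z, (.node (.ofNat 0) (.node (.ofNat 0) .nil .nil (K (.negSucc 162663747)) (K (.ofNat 170580690))) (.node (.ofNat 0) .nil .nil (K (.negSucc 190976793)) (K (.negSucc 25564251))) (.node (.ofNat 0) (K (.negSucc 246964087)) (K (.negSucc 120407541)) .nil .nil) (.node (.ofNat 0) (K (.ofNat 140556886)) (K (.ofNat 68949112)) .nil .nil))⟩,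
  ⟨.z, T0, (.node (.ofNat 0) (K (.ofNat 110357472)) (K (.negSucc 32206951)) .nil .nil)⟩,
  ⟨.z, T1, (.node (.ofNat 0) (K (.negSucc 125126407)) (K (.negSucc 10914303)) .nil .nil)⟩,
  ⟨.z, T2, (.node (.ofNat 0) .nil .nil (K (.ofNat 61772416)) .nil)⟩,
  ⟨.x, T0, (.node (.ofNat 0) .nil .nil (K (.ofNat 74926188)) (K (.negSucc 29380427)))⟩,
  ⟨.z, T5, (K (.ofNat 69199344))⟩,
  ⟨.z, T6, (K (.ofNat 115055136))⟩,
  ⟨.x, T7, (K (.negSucc 58903919))⟩,
  ⟨.x, T8, (K (.ofNat 24189984))⟩] (.node [⟨.x, .z, (.node (.ofNat 0) .nil .nil (K (.ofNat 526067972)) (K (.ofNat 767317746)))⟩,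
  ⟨.z, T0, (K (.negSucc 488834439))⟩,
  ⟨.z, T1, (K (.ofNat 181418576))⟩] .nil .nil (.node [⟨.x, .z, (K (.negSucc 325451423))⟩] .nil .nil .nil .nil) (.node [⟨.x, .z, (K (.negSucc 711443581))⟩] .nil .nil .nil .nil)) (.node [⟨.x, .z, (.node (.ofNat 0) .nil .nil (K (.negSucc 32053333)) (K (.ofNat 182336553)))⟩,
  ⟨.z, T0, (K (.negSucc 10688175))⟩,
  ⟨.z, T1, (K (.ofNat 46367680))⟩] .nil .nil (.node [⟨.x, .z, (K (.negSucc 30846409))⟩] .nil .nil .nil .nil) (.node [⟨.x, .z, (K (.negSucc 273619535))⟩] .nil .nil .nil .nil)) (.node [⟨.x, .z, (.node (.ofNat 0) (K (.negSucc 9072143)) (K (.negSucc 194630903)) .nil .nil)⟩,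
  ⟨.x, T0, (K (.negSucc 115908559))⟩] (.node [⟨.x, .z, (K (.ofNat 187269208))⟩] .nil .nil .nil .nil) (.node [⟨.x, .z, (K (.ofNat 299900350))⟩] .nil .nil .nil .nil) .nil .nil) (.node [⟨.x, .z, (.node (.ofNat 0) (K (.ofNat 366024272)) (K (.ofNat 212074048)) .nil .nil)⟩,
  ⟨.x, T0, (K (.negSucc 322846975))⟩] .nil (.node [⟨.x, .z, (K (.negSucc 69719839))⟩] .nil .nil .nil .nil) .nil .nil))
def c_lrp : Cert := (.node [⟨.x, .z, (.node (.ofNat 0) (.node (.ofNat 0) (K (.negSucc 174897703)) (K (.negSucc 181540839)) .nil .nil) (.node (.ofNat 0) (K (.negSucc 186207927)) (K (.negSucc 13154775)) .nil .nil) .nil .nil)⟩,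
  ⟨.z, T2, (.node (.ofNat 0) (K (.ofNat 143654440)) (K (.ofNat 76555400)) .nil .nil)⟩,
  ⟨.x, T0, (.node (.ofNat 0) (K (.ofNat 567376624)) (K (.ofNat 336132224)) .nil .nil)⟩,
  ⟨.z, T9, (K (.negSucc 7941983))⟩,
  ⟨.x, T4, (K (.negSucc 250978295))⟩] (.node [⟨.x, .z, (.node (.ofNat 0) (K (.ofNat 474747896)) (K (.negSucc 87075847)) .nil .nil)⟩,
  ⟨.z, T2, (K (.ofNat 25534688))⟩,
  ⟨.x, T0, (K (.ofNat 71394344))⟩] (.node [⟨.x, .z, (K (.negSucc 74963311))⟩] .nil .nil .nil .nil) (.node [⟨.x, .z, (K (.negSucc 146606383))⟩] .nil .nil .nil .nil) .nil .nil) (.node [⟨.x, .z, (.node (.ofNat 0) (K (.negSucc 45451705)) (K (.negSucc 20971383)) .nil .nil)⟩,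
  ⟨.z, T2, (K (.negSucc 154192343))⟩] (.node [⟨.x, .z, (K (.ofNat 37706700))⟩] .nil .nil .nil .nil) (.node [⟨.x, .z, (K (.ofNat 214611904))⟩] .nil .nil .nil .nil) .nil .nil) .nil .nil)
def c_lrq : Cert := (.node [⟨.x, .z, (.node (.ofNat 0) (.node (.ofNat 0) (K (.negSucc 960357927)) (K (.ofNat 362353350)) .nil .nil) (.node (.ofNat 0) (K (.ofNat 193407848)) (K (.negSucc 39308935)) .nil .nil) .nil .nil)⟩,
  ⟨.z, T2, (.node (.ofNat 0) .nil (K (.ofNat 184036920)) .nil .nil)⟩,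
  ⟨.x, T0, (.node (.ofNat 0) (K (.ofNat 133574792)) (K (.negSucc 361740269)) .nil .nil)⟩,
  ⟨.z, T10, (K (.negSucc 184370663))⟩,
  ⟨.x, T3, (K (.negSucc 50627327))⟩,
  ⟨.x, T4, (K (.ofNat 121224712))⟩] (.node [⟨.x, .z, (.node (.ofNat 0) (K (.ofNat 758572530)) (K (.negSucc 223396815)) .nil .nil)⟩,
  ⟨.z, T2, (K (.ofNat 333908152))⟩,
  ⟨.x, T0, (K (.ofNat 1175203066))⟩] (.node [⟨.x, .z, (K (.negSucc 75203109))⟩] .nil .nil .nil .nil) (.node [⟨.x, .z, (K (.ofNat 123198680))⟩] .nil .nil .nil .nil) .nil .nil) (.node [⟨.x, .z, (.node (.ofNat 0) (K (.negSucc 457865209)) (K (.negSucc 239363601)) .nil .nil)⟩] .nil (.node [⟨.x, .z, (K (.ofNat 981464282))⟩] .nil .nil .nil .nil) .nil .nil) .nil .nil)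
def c_lr : Cert := (.node [⟨.x, .z, (.node (.ofNat 0) (.node (.ofNat 0) (.node (.ofNat 0) .nil .nil (K (.ofNat 79488530)) (K (.negSucc 114292547))) (.node (.ofNat 0) .nil .nil (K (.negSucc 509827305)) (K (.ofNat 15224528))) (.node (.ofNat 0) (K (.ofNat 217571824)) (K (.negSucc 89871625)) .nil .nil) (.node (.ofNat 0) (K (.negSucc 95213255)) (K (.negSucc 347440551)) .nil .nil)) (.node (.ofNat 0) (.node (.ofNat 0) .nil .nil (K (.negSucc 317321327)) (K (.negSucc 171648543))) (.node (.ofNat 0) .nil .nil (K (.negSucc 335840833)) (K (.negSucc 75303449))) (.node (.ofNat 0) (K (.ofNat 490473322)) .nil .nil .nil) (.node (.ofNat 0) (K (.negSucc 176784015)) (K (.ofNat 15810560)) .nil .nil)) (.node (.ofNat 0) (.node (.ofNat 0) (K (.negSucc 126052303)) (K (.negSucc 34730799)) .nil .nil) (.node (.ofNat 0) (K (.ofNat 287134074)) (K (.ofNat 165000952)) .nil .nil) .nil .nil) (.node (.ofNat 0) .nil (.node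 (.ofNat 0) (K (.ofNat 375283960)) (K (.negSucc 24553903)) .nil .nil) .nil .nil))⟩,
  ⟨.z, T0, (.node (.ofNat 0) (.node (.ofNat 0) (K (.ofNat 264471630)) (K (.ofNat 115831488)) .nil .nil) (.node (.ofNat 0) (K (.ofNat 140922768)) (K (.ofNat 15436048)) .nil .nil) .nil .nil)⟩,
  ⟨.z, T1, (.node (.ofNat 0) (.node (.ofNat 0) (K (.ofNat 50831008)) (K (.ofNat 118393088)) .nil .nil) (.node (.ofNat 0) (K (.ofNat 29859504)) (K (.negSucc 27595791)) .nil .nil) .nil .nil)⟩,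
  ⟨.z, T2, (.node (.ofNat 0) (.node (.ofNat 0) .nil .nil (K (.negSucc 128159159)) (K (.ofNat 217828872))) (.node (.ofNat 0) .nil .nil .nil (K (.ofNat 380238912))) (.node (.ofNat 0) (K (.negSucc 51425839)) (K (.negSucc 106059039)) .nil .nil) .nil)⟩,
  ⟨.x, T0, (.node (.ofNat 0) (.node (.ofNat 0) .nil .nil (K (.negSucc 30033031)) .nil) (.node (.ofNat 0) .nil .nil (K (.ofNat 210422072)) (K (.negSucc 6539807))) (.node (.ofNat 0) (K (.negSucc 221560831)) (K (.ofNat 23971344)) .nil .nil) (.node (.ofNat 0) (K (.ofNat 203775168)) (K (.negSucc 26617551)) .nil .nil))⟩,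
  ⟨.z, T3, (.node (.ofNat 0) (K (.ofNat 182820672)) (K (.negSucc 40281631)) .nil .nil)⟩,
  ⟨.z, T4, (.node (.ofNat 0) (K (.negSucc 13974911)) (K (.negSucc 15355295)) .nil .nil)⟩,
  ⟨.z, T5, (.node (.ofNat 0) (K (.negSucc 34905167)) (K (.negSucc 10898207)) .nil .nil)⟩,
  ⟨.z, T6, (.node (.ofNat 0) (K (.negSucc 119234591)) (K (.ofNat 5376960)) .nil .nil)⟩,
  ⟨.x, T7, (.node (.ofNat 0) (K (.negSucc 2605103)) (K (.negSucc 14509439)) .nil .nil)⟩,
  ⟨.x, T8, (.node (.ofNat 0) (K (.ofNat 62116704)) (K (.negSucc 9616607)) .nil .nil)⟩,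
  ⟨.z, T9, (.node (.ofNat 0) .nil .nil (K (.ofNat 55271846)) (K (.negSucc 7246745)))⟩,
  ⟨.z, T10, (.node (.ofNat 0) .nil .nil (K (.ofNat 146744982)) (K (.negSucc 103865633)))⟩,
  ⟨.x, T4, (.node (.ofNat 0) .nil .nil (K (.negSucc 89511271)) (K (.ofNat 151001384)))⟩,
  ⟨.z, T11, (K (.ofNat 29291424))⟩,
  ⟨.z, T12, (K (.negSucc 27387743))⟩,
  ⟨.z, T14, (K (.ofNat 4787136))⟩,
  ⟨.z, T15, (K (.negSucc 1082879))⟩] c_lrr c_lrl c_lrp c_lrq)
def c_llr : Cert := (.node [⟨.x, .z, (.node (.ofNat 0) (.node (.ofNat 0) .nil .nil (K (.ofNat 51606734)) (K (.ofNat 597085258))) (.node (.ofNat 0) .nil .nil (K (.negSucc 723734313)) (K (.negSucc 122370901))) (.node (.ofNat 0) (K (.ofNat 49050588)) (K (.negSucc 857362149)) .nil .nil) (.node (.ofNat 0) (K (.ofNat 123705682)) (K (.negSucc 260408837)) .nil .nil))⟩,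
  ⟨.z, T0, (.node (.ofNat 0) (K (.ofNat 789059364)) (K (.ofNat 281509430)) .nil .nil)⟩,
  ⟨.z, T1, (.node (.ofNat 0) (K (.ofNat 90945358)) (K (.negSucc 36189983)) .nil .nil)⟩,
  ⟨.z, T2, (.node (.ofNat 0) .nil .nil (K (.negSucc 232409113)) (K (.negSucc 145672721)))⟩,
  ⟨.x, T0, (.node (.ofNat 0) .nil .nil (K (.negSucc 138034757)) (K (.ofNat 204212790)))⟩,
  ⟨.z, T3, (K (.ofNat 203963170))⟩,
  ⟨.z, T5, (K (.negSucc 74886527))⟩,
  ⟨.z, T6, (K (.negSucc 62800895))⟩,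
  ⟨.x, T7, (K (.negSucc 37668095))⟩,
  ⟨.x, T8, (K (.ofNat 8861184))⟩] (.node [⟨.x, .z, (.node (.ofNat 0) .nil .nil (K (.ofNat 44958892)) (K (.ofNat 244645240)))⟩,
  ⟨.z, T0, (K (.negSucc 172976207))⟩,
  ⟨.z, T1, (K (.ofNat 1688832))⟩] .nil .nil (.node [⟨.x, .z, (K (.ofNat 106499936))⟩] .nil .nil .nil .nil) (.node [⟨.x, .z, (K (.negSucc 754932809))⟩] .nil .nil .nil .nil)) (.node [⟨.x, .z, (.node (.ofNat 0) .nil .nil (K (.negSucc 38317803)) (K (.ofNat 7647959)))⟩,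
  ⟨.z, T0, (K (.ofNat 145778066))⟩,
  ⟨.z, T1, (K (.ofNat 3264872))⟩] .nil .nil (.node [⟨.x, .z, (K (.ofNat 395549884))⟩] .nil .nil .nil .nil) (.node [⟨.x, .z, (K (.ofNat 275540814))⟩] .nil .nil .nil .nil)) (.node [⟨.x, .z, (.node (.ofNat 0) (K (.ofNat 141891554)) (K (.ofNat 82360352)) .nil .nil)⟩,
  ⟨.x, T0, (K (.negSucc 90499535))⟩] (.node [⟨.x, .z, (K (.negSucc 30915441))⟩] .nil .nil .nil .nil) (.node [⟨.x, .z, (K (.ofNat 984579992))⟩] .nil .nil .nil .nil) .nil .nil) (.node [⟨.x, .z, (.node (.ofNat 0) (K (.ofNat 303458218)) (K (.ofNat 377015606)) .nil .nil)⟩,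
  ⟨.z, T2, (K (.negSucc 204353425))⟩,
  ⟨.x, T0, (K (.negSucc 399400363))⟩] .nil (.node [⟨.x, .z, (K (.negSucc 277151221))⟩] .nil .nil .nil .nil) .nil .nil))
def c_lll : Cert := (.node [⟨.x, .z, (.node (.ofNat 0) (.node (.ofNat 0) .nil .nil (K (.negSucc 382049327)) .nil) (.node (.ofNat 0) .nil .nil (K (.negSucc 144018991)) (K (.ofNat 106749332))) (.node (.ofNat 0) (K (.ofNat 809477032)) (K (.ofNat 234133044)) .nil .nil) (.node (.ofNat 0) (K (.ofNat 68545542)) (K (.negSucc 245539571)) .nil .nil))⟩,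
  ⟨.z, T0, (.node (.ofNat 0) (K (.ofNat 44428464)) (K (.ofNat 284267700)) .nil .nil)⟩,
  ⟨.z, T1, (.node (.ofNat 0) (K (.ofNat 943075128)) (K (.ofNat 232412936)) .nil .nil)⟩,
  ⟨.z, T2, (.node (.ofNat 0) .nil .nil (K (.negSucc 2041885)) (K (.negSucc 314804461)))⟩,
  ⟨.x, T0, (.node (.ofNat 0) .nil .nil (K (.ofNat 300873280)) (K (.negSucc 251007903)))⟩,
  ⟨.z, T3, (K (.ofNat 22770974))⟩,
  ⟨.z, T4, (K (.ofNat 19432224))⟩,
  ⟨.z, T5, (K (.negSucc 18147421))⟩,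
  ⟨.z, T6, (K (.ofNat 20366530))⟩,
  ⟨.x, T7, (K (.negSucc 39562847))⟩,
  ⟨.x, T8, (K (.ofNat 17686080))⟩] (.node [⟨.x, .z, (.node (.ofNat 0) .nil .nil (K (.ofNat 204336198)) (K (.ofNat 22411844)))⟩,
  ⟨.z, T0, (K (.ofNat 107859110))⟩,
  ⟨.z, T1, (K (.ofNat 90930274))⟩] .nil .nil (.node [⟨.x, .z, (K (.negSucc 504483171))⟩] .nil .nil .nil .nil) (.node [⟨.x, .z, (K (.ofNat 270418990))⟩] .nil .nil .nil .nil)) (.node [⟨.x, .z, (.node (.ofNat 0) .nil .nil (K (.ofNat 369770038)) (K (.ofNat 96898298)))⟩,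
  ⟨.z, T0, (K (.ofNat 40422240))⟩,
  ⟨.z, T1, (K (.ofNat 352881718))⟩] .nil .nil (.node [⟨.x, .z, (K (.negSucc 740475331))⟩] .nil .nil .nil .nil) (.node [⟨.x, .z, (K (.negSucc 41931359))⟩] .nil .nil .nil .nil)) (.node [⟨.x, .z, (.node (.ofNat 0) .nil (K (.negSucc 102713833)) .nil .nil)⟩,
  ⟨.x, T0, (K (.ofNat 108237526))⟩] .nil (.node [⟨.x, .z, (K (.negSucc 50723259))⟩] .nil .nil .nil .nil) .nil .nil) (.node [⟨.x, .z, (.node (.ofNat 0) (K (.negSucc 313766209)) (K (.negSucc 34790365)) .nil .nil)⟩,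
  ⟨.z, T2, (K (.negSucc 19543069))⟩,
  ⟨.x, T0, (K (.ofNat 233271218))⟩] (.node [⟨.x, .z, (K (.ofNat 149374064))⟩] .nil .nil .nil .nil) (.node [⟨.x, .z, (K (.ofNat 16751774))⟩] .nil .nil .nil .nil) .nil .nil))
def c_llp : Cert := (.node [⟨.x, .z, (.node (.ofNat 0) (.node (.ofNat 0) (K (.negSucc 26345043)) (K (.negSucc 295311767)) .nil .nil) (.node (.ofNat 0) .nil (K (.ofNat 233466000)) .nil .nil) .nil .nil)⟩,
  ⟨.z, T9, (K (.negSucc 186321407))⟩,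
  ⟨.z, T10, (K (.ofNat 29645568))⟩,
  ⟨.x, T3, (K (.negSucc 180008927))⟩,
  ⟨.x, T4, (K (.ofNat 156359574))⟩] (.node [⟨.x, .z, (.node (.ofNat 0) (K (.ofNat 662899748)) (K (.negSucc 1001209)) .nil .nil)⟩,
  ⟨.z, T2, (K (.negSucc 59363677))⟩,
  ⟨.x, T0, (K (.negSucc 691686805))⟩] (.node [⟨.x, .z, (K (.negSucc 179557109))⟩] .nil .nil .nil .nil) (.node [⟨.x, .z, (K (.negSucc 52252737))⟩] .nil .nil .nil .nil) .nil .nil) (.node [⟨.x, .z, (.node (.ofNat 0) (K (.ofNat 449468192)) .nil .nil .nil)⟩,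
  ⟨.z, T2, (K (.ofNat 202461170))⟩,
  ⟨.x, T0, (K (.ofNat 176721178))⟩] (.node [⟨.x, .z, (K (.ofNat 593364780))⟩] .nil .nil .nil .nil) (.node [⟨.x, .z, (K (.ofNat 793462870))⟩] .nil .nil .nil .nil) .nil .nil) .nil .nil)
def c_llq : Cert := (.node [⟨.x, .z, (.node (.ofNat 0) (.node (.ofNat 0) (K (.negSucc 604656967)) (K (.negSucc 244137061)) .nil .nil) (.node (.ofNat 0) (K (.ofNat 37866974)) (K (.ofNat 30369858)) .nil .nil) .nil .nil)⟩,
  ⟨.z, T2, (.node (.ofNat 0) (K (.ofNat 147568656)) (K (.ofNat 35693826)) .nil .nil)⟩,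
  ⟨.x, T0, (.node (.ofNat 0) (K (.ofNat 509715574)) (K (.ofNat 201188486)) .nil .nil)⟩,
  ⟨.z, T9, (K (.negSucc 44484129))⟩,
  ⟨.z, T10, (K (.negSucc 45113889))⟩,
  ⟨.x, T4, (K (.ofNat 47946274))⟩] (.node [⟨.x, .z, (.node (.ofNat 0) (K (.negSucc 22403871)) (K (.ofNat 102821492)) .nil .nil)⟩] (.node [⟨.x, .z, (K (.ofNat 624065644))⟩] .nil .nil .nil .nil) .nil .nil .nil) (.node [⟨.x, .z, (.node (.ofNat 0) (K (.negSucc 9379563)) (K (.ofNat 32880448)) .nil .nil)⟩,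
  ⟨.z, T2, (K (.negSucc 41417889))⟩,
  ⟨.x, T0, (K (.negSucc 90466305))⟩] (.node [⟨.x, .z, (K (.ofNat 504370070))⟩] .nil .nil .nil .nil) (.node [⟨.x, .z, (K (.ofNat 45061666))⟩] .nil .nil .nil .nil) .nil .nil) .nil .nil)
def c_ll : Cert := (.node [⟨.x, .z, (.node (.ofNat 0) (.node (.ofNat 0) (.node (.ofNat 0) .nil .nil (K (.negSucc 92813037)) (K (.negSucc 1050438659))) (.node (.ofNat 0) .nil .nil (K (.ofNat 711621890)) (K (.negSucc 43596423))) (.node (.ofNat 0) (K (.negSucc 923759761)) (K (.ofNat 482893802)) .nil .nil) (.node (.ofNat 0) (K (.negSucc 70190559)) (K (.ofNat 162187396)) .nil .nil)) (.node (.ofNat 0) (.node (.ofNat 0) .nil .nil (K (.ofNat 54780520)) (K (.negSucc 206992479))) (.node (.ofNat 0) .nil .nil (K (.ofNat 125441850)) (K (.ofNat 94986198))) (.node (.ofNat 0) (K (.negSucc 928025721)) .nil .nil .nil) (.node (.ofNat 0) (K (.ofNat 632496582)) (K (.ofNat 240832312)) .nil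 .nil)) (.node (.ofNat 0) (.node (.ofNat 0) (K (.ofNat 768302500)) (K (.ofNat 497712560)) .nil .nil) (.node (.ofNat 0) (K (.negSucc 488355091)) (K (.negSucc 231649837)) .nil .nil) .nil .nil) (.node (.ofNat 0) (.node (.ofNat 0) (K (.ofNat 1076432990)) (K (.ofNat 215995524)) .nil .nil) (.node (.ofNat 0) (K (.negSucc 561252323)) (K (.negSucc 282618185)) .nil .nil) .nil .nil))⟩,
  ⟨.z, T0, (.node (.ofNat 0) (.node (.ofNat 0) (K (.ofNat 1316160)) (K (.ofNat 69611794)) .nil .nil) (.node (.ofNat 0) (K (.ofNat 711128710)) (K (.ofNat 321061434)) .nil .nil) .nil .nil)⟩,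
  ⟨.z, T1, (.node (.ofNat 0) (.node (.ofNat 0) (K (.ofNat 902273236)) (K (.ofNat 374694122)) .nil .nil) (.node (.ofNat 0) (K (.ofNat 230104290)) (K (.negSucc 139296207)) .nil .nil) .nil .nil)⟩,
  ⟨.z, T2, (.node (.ofNat 0) (.node (.ofNat 0) .nil .nil (K (.ofNat 46006928)) (K (.ofNat 665520096))) (.node (.ofNat 0) .nil .nil (K (.negSucc 457749171)) (K (.ofNat 133806320))) (.node (.ofNat 0) (K (.ofNat 270154462)) (K (.negSucc 550570385)) .nil .nil) (.node (.ofNat 0) .nil (K (.negSucc 201331173)) .nil .nil))⟩,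
  ⟨.x, T0, (.node (.ofNat 0) (.node (.ofNat 0) .nil .nil (K (.ofNat 88218704)) (K (.ofNat 817850762))) (.node (.ofNat 0) .nil .nil (K (.negSucc 513009097)) (K (.ofNat 14217100))) (.node (.ofNat 0) (K (.ofNat 925262770)) (K (.negSucc 465895033)) .nil .nil) (.node (.ofNat 0) .nil (K (.negSucc 235537639)) .nil .nil))⟩,
  ⟨.z, T3, (.node (.ofNat 0) (K (.negSucc 99893101)) (K (.negSucc 40476929)) .nil .nil)⟩,
  ⟨.z, T4, (.node (.ofNat 0) (K (.ofNat 5921568)) .nil .nil .nil)⟩,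
  ⟨.z, T5, (.node (.ofNat 0) (K (.ofNat 100442606)) (K (.negSucc 22626063)) .nil .nil)⟩,
  ⟨.z, T6, (.node (.ofNat 0) (K (.ofNat 141078686)) (K (.ofNat 6754976)) .nil .nil)⟩,
  ⟨.x, T7, (.node (.ofNat 0) (K (.negSucc 42680303)) (K (.negSucc 13499567)) .nil .nil)⟩,
  ⟨.x, T8, (.node (.ofNat 0) (K (.ofNat 35311248)) .nil .nil .nil)⟩,
  ⟨.z, T9, (.node (.ofNat 0) .nil .nil .nil (K (.ofNat 13733926)))⟩,
  ⟨.z, T10, (.node (.ofNat 0) .nil .nil (K (.ofNat 2471040)) (K (.negSucc 32781913)))⟩,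
  ⟨.x, T4, (.node (.ofNat 0) .nil .nil (K (.negSucc 29938751)) (K (.ofNat 52781340)))⟩,
  ⟨.z, T11, (K (.negSucc 6419327))⟩,
  ⟨.z, T12, (K (.negSucc 5789567))⟩,
  ⟨.z, T30, (K (.ofNat 1555200))⟩,
  ⟨.z, T14, (K (.ofNat 1559232))⟩,
  ⟨.z, T15, (K (.ofNat 2884608))⟩,
  ⟨.z, T16, (K (.ofNat 8083584))⟩,
  ⟨.x, T17, (K (.negSucc 3227903))⟩] c_llr c_lll c_llp c_llq)
def c_lpr : Cert := (.node [⟨.x, .z, (.node (.ofNat 0) (.node (.ofNat 0) (K (.negSucc 366822925)) (K (.ofNat 76132282)) .nil .nil) (.node (.ofNat 0) (K (.ofNat 58512274)) (K (.negSucc 35664831)) .nil .nil) .nil .nil)⟩,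
  ⟨.z, T2, (.node (.ofNat 0) (K (.negSucc 24659063)) .nil .nil .nil)⟩,
  ⟨.x, T0, (.node (.ofNat 0) (K (.negSucc 216953911)) (K (.negSucc 337920113)) .nil .nil)⟩] (.node [⟨.x, .z, (.node (.ofNat 0) (K (.ofNat 536864240)) (K (.negSucc 1293393935)) .nil .nil)⟩,
  ⟨.x, T0, (K (.ofNat 1028251328))⟩] (.node [⟨.x, .z, (K (.negSucc 844853735))⟩] .nil .nil .nil .nil) (.node [⟨.x, .z, (K (.ofNat 362166798))⟩] .nil .nil .nil .nil) .nil .nil) (.node [⟨.x, .z, (.node (.ofNat 0) .nil (K (.negSucc 1088524143)) .nil .nil)⟩,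
  ⟨.z, T2, (K (.ofNat 123857920))⟩,
  ⟨.x, T0, (K (.ofNat 247059212))⟩] (.node [⟨.x, .z, (K (.ofNat 825550054))⟩] .nil .nil .nil .nil) (.node [⟨.x, .z, (K (.ofNat 1041486860))⟩] .nil .nil .nil .nil) .nil .nil) .nil .nil)
def c_lpl : Cert := (.node [⟨.x, .z, (.node (.ofNat 0) (.node (.ofNat 0) .nil (K (.ofNat 250425772)) .nil .nil) (.node (.ofNat 0) (K (.negSucc 271517253)) (K (.ofNat 390509784)) .nil .nil) .nil .nil)⟩,
  ⟨.z, T2, (.node (.ofNat 0) (K (.ofNat 430352824)) (K (.negSucc 134170391)) .nil .nil)⟩,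
  ⟨.x, T0, (.node (.ofNat 0) (K (.ofNat 599630710)) (K (.ofNat 404192270)) .nil .nil)⟩,
  ⟨.z, T9, (K (.negSucc 38695255))⟩,
  ⟨.z, T10, (K (.ofNat 121113256))⟩,
  ⟨.x, T3, (K (.negSucc 86078687))⟩] (.node [⟨.x, .z, (.node (.ofNat 0) (K (.ofNat 150886526)) (K (.negSucc 529345425)) .nil .nil)⟩,
  ⟨.z, T2, (K (.ofNat 501577794))⟩] (.node [⟨.x, .z, (K (.ofNat 192187368))⟩] .nil .nil .nil .nil) (.node [⟨.x, .z, (K (.ofNat 400263343))⟩] .nil .nil .nil .nil) .nil .nil) (.node [⟨.x, .z, (.node (.ofNat 0) .nil (K (.ofNat 472870212)) .nil .nil)⟩,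
  ⟨.z, T2, (K (.negSucc 14046719))⟩,
  ⟨.x, T0, (K (.negSucc 121053343))⟩] (.node [⟨.x, .z, (K (.ofNat 457973988))⟩] .nil .nil .nil .nil) .nil .nil .nil) .nil .nil)
def c_lpp : Cert := (.node [⟨.x, T9, (K (.ofNat 5504367))⟩,
  ⟨.x, T10, (K (.ofNat 8871588))⟩] .nil .nil .nil .nil)
def c_lpq : Cert := (.node [⟨.x, T9, (K (.ofNat 37022583))⟩] .nil .nil .nil .nil)
def c_lp : Cert := (.node [⟨.x, .z, (.node (.ofNat 0) (.node (.ofNat 0) (.node (.ofNat 0) (K (.ofNat 214354984)) (K (.ofNat 181680576)) .nil .nil) (.node (.ofNat 0) .nil (K (.ofNat 375874994)) .nil .nil) .nil .nil) (.node (.ofNat 0) (.node (.ofNat 0) .nil (K (.negSucc 207789527)) .nil .nil) (.node (.ofNat 0) (K (.ofNat 366444519)) (K (.negSucc 278317207)) .nil .nil) .nil .nil) .nil .nil)⟩,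
  ⟨.z, T2, (.node (.ofNat 0) .nil (.node (.ofNat 0) .nil (K (.ofNat 236535768)) .nil .nil) .nil .nil)⟩,
  ⟨.x, T0, (.node (.ofNat 0) (.node (.ofNat 0) (K (.ofNat 7630290)) (K (.negSucc 1459087)) .nil .nil) (.node (.ofNat 0) .nil (K (.ofNat 171026224)) .nil .nil) .nil .nil)⟩,
  ⟨.z, T9, (.node (.ofNat 0) (K (.negSucc 66271295)) (K (.ofNat 23256256)) .nil .nil)⟩,
  ⟨.z, T10, (.node (.ofNat 0) (K (.negSucc 64073711)) (K (.ofNat 30067536)) .nil .nil)⟩,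
  ⟨.x, T4, (.node (.ofNat 0) (K (.negSucc 127295999)) (K (.ofNat 165904144)) .nil .nil)⟩,
  ⟨.x, T9, (.node (.ofNat 0) .nil .nil .nil (K (.ofNat 33961863)))⟩,
  ⟨.x, T10, (.node (.ofNat 0) .nil .nil (K (.ofNat 30355727)) (K (.negSucc 3441224)))⟩,
  ⟨.z, T18, (K (.ofNat 18582912))⟩,
  ⟨.z, T19, (K (.negSucc 5138495))⟩,
  ⟨.x, T12, (K (.negSucc 11131199))⟩,
  ⟨.x, T30, (K (.negSucc 1975103))⟩] c_lpr c_lpl c_lpp c_lpq)
def c_lqr : Cert := (.node [⟨.x, .z, (.node (.ofNat 0) (.node (.ofNat 0) (K (.negSucc 445931297)) (K (.ofNat 234716206)) .nil .nil) (.node (.ofNat 0) (K (.ofNat 208987342)) .nil .nil .nil) .nil .nil)⟩,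
  ⟨.x, T0, (.node (.ofNat 0) (K (.negSucc 51069909)) (K (.negSucc 222807845)) .nil .nil)⟩,
  ⟨.x, T4, (K (.negSucc 130092223))⟩] (.node [⟨.x, .z, (.node (.ofNat 0) .nil (K (.negSucc 274748311)) .nil .nil)⟩,
  ⟨.x, T0, (K (.ofNat 974117320))⟩] .nil (.node [⟨.x, .z, (K (.negSucc 192952973))⟩] .nil .nil .nil .nil) .nil .nil) (.node [⟨.x, .z, (.node (.ofNat 0) (K (.negSucc 452030753)) (K (.negSucc 499209187)) .nil .nil)⟩,
  ⟨.x, T0, (K (.ofNat 320839824))⟩] (.node [⟨.x, .z, (K (.negSucc 845526391))⟩] .nil .nil .nil .nil) .nil .nil .nil) .nil .nil)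
def c_lql : Cert := (.node [⟨.x, .z, (.node (.ofNat 0) (.node (.ofNat 0) (K (.ofNat 156059792)) (K (.ofNat 29631696)) .nil .nil) (.node (.ofNat 0) (K (.ofNat 3652144)) (K (.ofNat 45791152)) .nil .nil) .nil .nil)⟩,
  ⟨.z, T2, (.node (.ofNat 0) (K (.negSucc 72891679)) (K (.ofNat 32525424)) .nil .nil)⟩,
  ⟨.x, T0, (.node (.ofNat 0) (K (.negSucc 202789119)) (K (.negSucc 46956223)) .nil .nil)⟩,
  ⟨.z, T9, (K (.negSucc 47177455))⟩,
  ⟨.z, T10, (K (.negSucc 46721263))⟩,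
  ⟨.x, T4, (K (.ofNat 46958576))⟩] (.node [⟨.x, .z, (.node (.ofNat 0) (K (.negSucc 9207969)) (K (.negSucc 279571209)) .nil .nil)⟩,
  ⟨.z, T2, (K (.negSucc 150964589))⟩,
  ⟨.x, T0, (K (.ofNat 278707530))⟩] (.node [⟨.x, .z, (K (.negSucc 26513637))⟩] .nil .nil .nil .nil) (.node [⟨.x, .z, (K (.ofNat 2336336))⟩] .nil .nil .nil .nil) .nil .nil) (.node [⟨.x, .z, (.node (.ofNat 0) (K (.ofNat 114010656)) (K (.negSucc 81262799)) .nil .nil)⟩,
  ⟨.z, T2, (K (.negSucc 46958575))⟩,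
  ⟨.x, T0, (K (.ofNat 2456176))⟩] (.node [⟨.x, .z, (K (.ofNat 101780624))⟩] .nil .nil .nil .nil) (.node [⟨.x, .z, (K (.ofNat 46958576))⟩] .nil .nil .nil .nil) .nil .nil) .nil .nil)
def c_lqp : Cert := (.node [⟨.x, T9, (K (.ofNat 69982167))⟩] .nil .nil .nil .nil)
def c_lqq : Cert := (.node [⟨.x, T9, (K (.negSucc 1795967))⟩,
  ⟨.x, T10, (K (.ofNat 38021072))⟩] .nil .nil .nil .nil)
def c_lq : Cert := (.node [⟨.x, .z, (.node (.ofNat 0) (.node (.ofNat 0) (.node (.ofNat 0) (K (.negSucc 219157869)) (K (.ofNat 51523696)) .nil .nil) (.node (.ofNat 0) (K (.ofNat 41782832)) (K (.ofNat 140270064)) .nil .nil) .nil .nil) (.node (.ofNat 0) (.node (.ofNat 0) (K (.negSucc 82753391)) (K (.ofNat 31741600)) .nil .nil) (.node (.ofNat 0) (K (.ofNat 139056960)) (K (.ofNat 33579696)) .nil .nil) .nil .nil) .nil .nil)⟩,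
  ⟨.z, T2, (.node (.ofNat 0) (.node (.ofNat 0) (K (.ofNat 119621008)) (K (.negSucc 196074463)) .nil .nil) (.node (.ofNat 0) (K (.negSucc 71443359)) (K (.negSucc 189115631)) .nil .nil) .nil .nil)⟩,
  ⟨.x, T0, (.node (.ofNat 0) (.node (.ofNat 0) (K (.ofNat 113594862)) (K (.negSucc 25000767)) .nil .nil) (.node (.ofNat 0) (K (.negSucc 126998335)) (K (.negSucc 106322847)) .nil .nil) .nil .nil)⟩,
  ⟨.z, T9, (.node (.ofNat 0) (K (.negSucc 120009615)) (K (.ofNat 53797200)) .nil .nil)⟩,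
  ⟨.z, T10, (.node (.ofNat 0) (K (.negSucc 118037775)) (K (.ofNat 12776704)) .nil .nil)⟩,
  ⟨.x, T4, (.node (.ofNat 0) (K (.ofNat 120027664)) (K (.negSucc 32525423)) .nil .nil)⟩,
  ⟨.x, T9, (.node (.ofNat 0) .nil .nil (K (.ofNat 19006272)) (K (.negSucc 42131807)))⟩,
  ⟨.x, T10, (.node (.ofNat 0) .nil .nil (K (.negSucc 12100695)) (K (.negSucc 26005479)))⟩,
  ⟨.z, T18, (K (.ofNat 1454976))⟩,
  ⟨.z, T19, (K (.negSucc 71423))⟩,
  ⟨.z, T20, (K (.negSucc 1401983))⟩] c_lqr c_lql c_lqp c_lqq)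
def c_l : Cert := (.node [⟨.x, .z, (.node (.ofNat 0) (.node (.ofNat 0) (.node (.ofNat 0) (.node (.ofNat 0) .nil .nil (K (.ofNat 46482354)) (K (.ofNat 704588580))) (.node (.ofNat 0) .nil .nil (K (.ofNat 215305798)) (K (.ofNat 916409896))) (.node (.ofNat 0) (K (.ofNat 298356304)) (K (.negSucc 34848969)) .nil .nil) (.node (.ofNat 0) (K (.negSucc 534051571)) (K (.negSucc 987118333)) .nil .nil)) (.node (.ofNat 0) (.node (.ofNat 0) .nil .nil (K (.ofNat 39694040)) (K (.ofNat 794072710))) (.node (.ofNat 0) .nil .nil .nil (K (.ofNat 51170974))) (.node (.ofNat 0) (K (.ofNat 792018880)) (K (.negSucc 404941517)) .nil .nil) (.node (.ofNat 0) (K (.negSucc 53968135)) (K (.negSucc 388015029)) .nil .nil)) (.node (.ofNat 0) (.node (.ofNat 0) (K (.negSucc 282938765)) (K (.negSucc 596661335)) .nil .nil) (.node (.ofNat 0) (K (.ofNat 138569544)) .nil .nil .nil) .nil .nil) (.node (.ofNat 0) (.node (.ofNat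 0) (K (.negSucc 192124063)) (K (.negSucc 1122123493)) .nil .nil) (.node (.ofNat 0) (K (.negSucc 105932135)) (K (.ofNat 134126022)) .nil .nil) .nil .nil)) (.node (.ofNat 0) (.node (.ofNat 0) (.node (.ofNat 0) .nil .nil (K (.ofNat 99773544)) (K (.ofNat 805459762))) (.node (.ofNat 0) .nil .nil (K (.negSucc 609641841)) (K (.ofNat 198142896))) (.node (.ofNat 0) (K (.ofNat 125304768)) (K (.negSucc 748739705)) .nil .nil) (.node (.ofNat 0) (K (.ofNat 629910350)) (K (.negSucc 42051641)) .nil .nil)) (.node (.ofNat 0) (.node (.ofNat 0) .nil .nil (K (.ofNat 43916464)) (K (.negSucc 80055647))) (.node (.ofNat 0) .nil .nil (K (.ofNat 129004488)) (K (.negSucc 18722535))) (.node (.ofNat 0) (K (.negSucc 263657873)) (K (.negSucc 220522163)) .nil .nil) (.node (.ofNat 0) (K (.negSucc 287959231)) (K (.negSucc 31078463)) .nil .nil)) (.node (.ofNat 0) (.node (.ofNat 0) (K (.negSucc 729060005)) .nil .nil .nil)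 (.node (.ofNat 0) (K (.negSucc 27137019)) (K (.negSucc 125126163)) .nil .nil) .nil .nil) (.node (.ofNat 0) (.node (.ofNat 0) (K (.ofNat 112455232)) (K (.ofNat 102713756)) .nil .nil) (.node (.ofNat 0) (K (.negSucc 79811887)) (K (.negSucc 165000207)) .nil .nil) .nil .nil)) (.node (.ofNat 0) (.node (.ofNat 0) (.node (.ofNat 0) (K (.ofNat 174801710)) (K (.negSucc 31837631)) .nil .nil) (.node (.ofNat 0) (K (.ofNat 177443510)) (K (.ofNat 302881526)) .nil .nil) .nil .nil) (.node (.ofNat 0) (.node (.ofNat 0) (K (.negSucc 261305655)) (K (.ofNat 407186166)) .nil .nil) (.node (.ofNat 0) (K (.ofNat 9059406)) (K (.ofNat 21407608)) .nil .nil) .nil .nil) .nil .nil) (.node (.ofNat 0) (.node (.ofNat 0) (.node (.ofNat 0) (K (.ofNat 883288838)) (K (.negSucc 171985127)) .nil .nil) (.node (.ofNat 0) (K (.negSucc 79903287)) (K (.ofNat 15169782)) .nil .nil) .nil .nil) (.node (.ofNat 0) (.node (.ofNat 0)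 (K (.negSucc 30974909)) (K (.negSucc 2769311)) .nil .nil) (.node (.ofNat 0) (K (.negSucc 70258639)) (K (.ofNat 120200368)) .nil .nil) .nil .nil) .nil .nil))⟩,
  ⟨.z, T0, (.node (.ofNat 0) (.node (.ofNat 0) (.node (.ofNat 0) (K (.negSucc 15801551)) (K (.ofNat 18396720)) .nil .nil) (.node (.ofNat 0) (K (.ofNat 107993424)) (K (.ofNat 9683504)) .nil .nil) .nil .nil) (.node (.ofNat 0) (.node (.ofNat 0) (K (.ofNat 202425630)) (K (.negSucc 23268767)) .nil .nil) (.node (.ofNat 0) (K (.ofNat 201729760)) (K (.negSucc 95521935)) .nil .nil) .nil .nil) .nil .nil)⟩,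
  ⟨.z, T1, (.node (.ofNat 0) (.node (.ofNat 0) (.node (.ofNat 0) (K (.ofNat 173464814)) (K (.negSucc 18987215)) .nil .nil) (.node (.ofNat 0) (K (.ofNat 101998160)) (K (.negSucc 20586015)) .nil .nil) .nil .nil) (.node (.ofNat 0) (.node (.ofNat 0) (K (.ofNat 387009800)) (K (.ofNat 149201192)) .nil .nil) (.node (.ofNat 0) (K (.ofNat 24441792)) (K (.negSucc 56116775)) .nil .nil) .nil .nil) .nil .nil)⟩,
  ⟨.z, T2, (.node (.ofNat 0) (.node (.ofNat 0) (.node (.ofNat 0) .nil .nil (K (.negSucc 35612273)) (K (.negSucc 360148167))) (.node (.ofNat 0) .nil .nil (K (.negSucc 105135855)) (K (.negSucc 408956935))) (.node (.ofNat 0) (K (.negSucc 220506879)) (K (.ofNat 260523310)) .nil .nil) .nil) (.node (.ofNat 0) (.node (.ofNat 0) .nil .nil (K (.negSucc 191936101)) (K (.negSucc 240877895))) (.node (.ofNat 0) .nil .nil (K (.negSucc 196507963)) (K (.negSucc 50646405))) (.node (.ofNat 0) .nil (K (.ofNat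 166178914)) .nil .nil) (.node (.ofNat 0) .nil (K (.ofNat 47422544)) .nil .nil)) (.node (.ofNat 0) (.node (.ofNat 0) (K (.ofNat 180269472)) .nil .nil .nil) (.node (.ofNat 0) (K (.ofNat 157227696)) (K (.negSucc 2405935)) .nil .nil) .nil .nil) (.node (.ofNat 0) (.node (.ofNat 0) .nil (K (.ofNat 28418126)) .nil .nil) (.node (.ofNat 0) (K (.ofNat 5239870)) .nil .nil .nil) .nil .nil))⟩,
  ⟨.x, T0, (.node (.ofNat 0) (.node (.ofNat 0) (.node (.ofNat 0) .nil .nil (K (.negSucc 9774369)) (K (.negSucc 23405305))) (.node (.ofNat 0) .nil .nil (K (.negSucc 327017837)) (K (.negSucc 162411199))) (.node (.ofNat 0) (K (.negSucc 125130847)) .nil .nil .nil) (.node (.ofNat 0) (K (.ofNat 306095654)) (K (.negSucc 220039)) .nil .nil)) (.node (.ofNat 0) (.node (.ofNat 0) .nil .nil (K (.negSucc 159454237)) .nil) (.node (.ofNat 0) .nil .nil (K (.negSucc 265829627)) (K (.ofNat 41969290))) (.node (.ofNat 0) (K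 (.ofNat 71785376)) (K (.ofNat 118296786)) .nil .nil) (.node (.ofNat 0) .nil (K (.ofNat 68383920)) .nil .nil)) (.node (.ofNat 0) (.node (.ofNat 0) (K (.ofNat 282938766)) (K (.negSucc 73519655)) .nil .nil) (.node (.ofNat 0) (K (.negSucc 57438791)) .nil .nil .nil) .nil .nil) (.node (.ofNat 0) (.node (.ofNat 0) .nil (K (.ofNat 217957686)) .nil .nil) (.node (.ofNat 0) (K (.ofNat 29612302)) (K (.ofNat 199481216)) .nil .nil) .nil .nil))⟩,
  ⟨.z, T3, (.node (.ofNat 0) (.node (.ofNat 0) .nil (K (.ofNat 114515712)) .nil .nil) (.node (.ofNat 0) .nil (K (.ofNat 149386144)) .nil .nil) .nil .nil)⟩,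
  ⟨.z, T4, (.node (.ofNat 0) (.node (.ofNat 0) .nil (K (.negSucc 8001791)) .nil .nil) (.node (.ofNat 0) .nil (K (.negSucc 19292831)) .nil .nil) .nil .nil)⟩,
  ⟨.z, T5, (.node (.ofNat 0) (.node (.ofNat 0) (K (.ofNat 390528)) (K (.negSucc 49687055)) .nil .nil) (.node (.ofNat 0) (K (.negSucc 71506367)) (K (.negSucc 53406639)) .nil .nil) .nil .nil)⟩,
  ⟨.z, T6, (.node (.ofNat 0) (.node (.ofNat 0) (K (.negSucc 406655)) (K (.negSucc 37813247)) .nil .nil) (.node (.ofNat 0) (K (.ofNat 7598448)) (K (.negSucc 33328143)) .nil .nil) .nil .nil)⟩,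
  ⟨.x, T7, (.node (.ofNat 0) (.node (.ofNat 0) (K (.negSucc 1336895)) (K (.negSucc 23916239)) .nil .nil) (.node (.ofNat 0) (K (.negSucc 31857983)) (K (.negSucc 15780815)) .nil .nil) .nil .nil)⟩,
  ⟨.x, T8, (.node (.ofNat 0) .nil (.node (.ofNat 0) (K (.negSucc 22231007)) .nil .nil .nil) .nil .nil)⟩,
  ⟨.z, T9, (.node (.ofNat 0) (.node (.ofNat 0) .nil .nil (K (.ofNat 58077008)) (K (.ofNat 105906800))) (.node (.ofNat 0) .nil .nil .nil (K (.ofNat 97469480))) (.node (.ofNat 0) (K (.ofNat 173289968)) (K (.negSucc 150730255)) .nil .nil) (.node (.ofNat 0) (K (.ofNat 99792416)) (K (.negSucc 21253999)) .nil .nil))⟩,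
  ⟨.z, T10, (.node (.ofNat 0) (.node (.ofNat 0) .nil .nil (K (.ofNat 61594640)) .nil) (.node (.ofNat 0) .nil .nil (K (.ofNat 71416984)) (K (.ofNat 165033360))) (.node (.ofNat 0) (K (.ofNat 171807344)) .nil .nil .nil) (.node (.ofNat 0) (K (.negSucc 42877103)) (K (.negSucc 12860255)) .nil .nil))⟩,
  ⟨.x, T3, (.node (.ofNat 0) .nil .nil (.node (.ofNat 0) (K (.ofNat 8106432)) .nil .nil .nil) .nil)⟩,
  ⟨.x, T4, (.node (.ofNat 0) (.node (.ofNat 0) .nil .nil (K (.negSucc 75227983)) (K (.negSucc 138752143))) (.node (.ofNat 0) .nil .nil .nil (K (.negSucc 92615695))) (.node (.ofNat 0) (K (.negSucc 179188015)) (K (.ofNat 143437904)) .nil .nil) (.node (.ofNat 0) (K (.ofNat 23289184)) (K (.negSucc 20194143)) .nil .nil))⟩,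
  ⟨.z, T11, (.node (.ofNat 0) (K (.ofNat 2742144)) (K (.negSucc 7207871)) .nil .nil)⟩,
  ⟨.z, T12, (.node (.ofNat 0) (K (.ofNat 553728)) (K (.negSucc 3076031)) .nil .nil)⟩,
  ⟨.z, T13, (.node (.ofNat 0) (K (.negSucc 1416959)) (K (.ofNat 1444608)) .nil .nil)⟩,
  ⟨.z, T14, (.node (.ofNat 0) (K (.ofNat 865152)) (K (.ofNat 127872)) .nil .nil)⟩,
  ⟨.z, T15, (.node (.ofNat 0) (K (.ofNat 2143872)) (K (.ofNat 767232)) .nil .nil)⟩,
  ⟨.x, T9, (.node (.ofNat 0) .nil .nil (.node (.ofNat 0) .nil .nil (K (.negSucc 19280777)) (K (.negSucc 13334765))) (.node (.ofNat 0) .nil .nil (K (.ofNat 2312469)) (K (.ofNat 5159061))))⟩,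
  ⟨.x, T10, (.node (.ofNat 0) .nil .nil (.node (.ofNat 0) .nil .nil (K (.negSucc 63171981)) (K (.ofNat 67386838))) (.node (.ofNat 0) .nil .nil (K (.ofNat 35750283)) (K (.negSucc 19716716))))⟩,
  ⟨.z, T18, (.node (.ofNat 0) .nil .nil (K (.negSucc 19206719)) (K (.ofNat 17071200)))⟩,
  ⟨.z, T19, (.node (.ofNat 0) .nil .nil (K (.ofNat 1510848)) (K (.negSucc 3550463)))⟩,
  ⟨.z, T20, (.node (.ofNat 0) .nil .nil (K (.ofNat 13782528)) (K (.negSucc 16429823)))⟩,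
  ⟨.x, T11, (.node (.ofNat 0) .nil .nil (K (.ofNat 21214080)) .nil)⟩,
  ⟨.x, T12, (.node (.ofNat 0) .nil .nil (K (.ofNat 18321984)) (K (.negSucc 117215)))⟩,
  ⟨.x, T30, (.node (.ofNat 0) .nil .nil (K (.ofNat 642816)) .nil)⟩,
  ⟨.z, T22, (K (.negSucc 145151))⟩,
  ⟨.z, T23, (K (.negSucc 518399))⟩,
  ⟨.z, T31, (K (.ofNat 41472))⟩,
  ⟨.z, T24, (K (.negSucc 414719))⟩] c_lr c_ll c_lp c_lq)
def c_prr : Cert := (.node [⟨.x, .z, (.node (.ofNat 0) (.node (.ofNat 0) (K (.ofNat 102864008)) (K (.ofNat 31548432)) .nil .nil) (.node (.ofNat 0) (K (.ofNat 98899976)) (K (.ofNat 30661968)) .nil .nil) .nil .nil)⟩,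
  ⟨.z, T2, (.node (.ofNat 0) (K (.negSucc 103109959)) (K (.negSucc 34907087)) .nil .nil)⟩,
  ⟨.x, T0, (.node (.ofNat 0) (K (.negSucc 91519119)) (K (.negSucc 23209111)) .nil .nil)⟩,
  ⟨.z, T9, (K (.ofNat 107136))⟩,
  ⟨.z, T10, (K (.ofNat 107136))⟩,
  ⟨.x, T4, (K (.negSucc 11590839))⟩] (.node [⟨.x, .z, (.node (.ofNat 0) (K (.ofNat 46980312)) (K (.ofNat 46980312)) .nil .nil)⟩,
  ⟨.z, T2, (K (.negSucc 46980311))⟩,
  ⟨.x, T0, (K (.negSucc 46980311))⟩] .nil (.node [⟨.x, .z, (K (.ofNat 5046816))⟩] .nil .nil .nil .nil) .nil .nil) (.node [⟨.x, .z, (.node (.ofNat 0) (K (.negSucc 126048455)) (K (.negSucc 105540577)) .nil .nil)⟩,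
  ⟨.z, T2, (K (.negSucc 21711789))⟩,
  ⟨.x, T0, (K (.ofNat 267167578))⟩] (.node [⟨.x, .z, (K (.ofNat 52709344))⟩] .nil .nil .nil .nil) (.node [⟨.x, .z, (K (.negSucc 178943239))⟩] .nil .nil .nil .nil) .nil .nil) .nil .nil)
def c_prl : Cert := (.node [⟨.x, .z, (.node (.ofNat 0) (.node (.ofNat 0) (K (.ofNat 135556478)) (K (.ofNat 25900344)) .nil .nil) (.node (.ofNat 0) (K (.negSucc 53085049)) (K (.ofNat 298835472)) .nil .nil) .nil .nil)⟩,
  ⟨.z, T2, (.node (.ofNat 0) (K (.ofNat 40708496)) (K (.negSucc 231197143)) .nil .nil)⟩,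
  ⟨.x, T0, (.node (.ofNat 0) (K (.negSucc 185356781)) (K (.negSucc 53976151)) .nil .nil)⟩,
  ⟨.z, T9, (K (.negSucc 87222951))⟩,
  ⟨.x, T4, (K (.negSucc 34384567))⟩] (.node [⟨.x, .z, (.node (.ofNat 0) (K (.negSucc 659531703)) (K (.ofNat 45076872)) .nil .nil)⟩,
  ⟨.x, T0, (K (.ofNat 61432334))⟩] (.node [⟨.x, .z, (K (.ofNat 215068650))⟩] .nil .nil .nil .nil) (.node [⟨.x, .z, (K (.negSucc 65165493))⟩] .nil .nil .nil .nil) .nil .nil) (.node [⟨.x, .z, (.node (.ofNat 0) (K (.ofNat 227388722)) (K (.negSucc 72691233)) .nil .nil)⟩,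
  ⟨.x, T0, (K (.negSucc 10621311))⟩] (.node [⟨.x, .z, (K (.negSucc 704747081))⟩] .nil .nil .nil .nil) (.node [⟨.x, .z, (K (.negSucc 830655321))⟩] .nil .nil .nil .nil) .nil .nil) .nil .nil)
def c_prp : Cert := (.node [⟨.x, T9, (K (.ofNat 65816704))⟩,
  ⟨.x, T10, (K (.negSucc 630719))⟩] .nil .nil .nil .nil)
def c_prq : Cert := (.node [⟨.x, T9, (K (.ofNat 55415091))⟩,
  ⟨.x, T10, (K (.ofNat 92821560))⟩] .nil .nil .nil .nil)
def c_pr : Cert := (.node [⟨.x, .z, (.node (.ofNat 0) (.node (.ofNat 0) (.node (.ofNat 0) (K (.negSucc 181334911)) (K (.ofNat 96713072)) .nil .nil) (.node (.ofNat 0) (K (.negSucc 64388655)) (K (.ofNat 195372272)) .nil .nil) .nil .nil) (.node (.ofNat 0) (.node (.ofNat 0) (K (.negSucc 125475055)) (K (.ofNat 45848560)) .nil .nil) (.node (.ofNat 0) (K (.negSucc 159410319)) (K (.ofNat 12410400)) .nil .nil) .nil .nil) .nil .nil)⟩,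
  ⟨.z, T2, (.node (.ofNat 0) (.node (.ofNat 0) (K (.ofNat 5471488)) (K (.negSucc 115116079)) .nil .nil) (.node (.ofNat 0) (K (.negSucc 62227247)) (K (.negSucc 10395551)) .nil .nil) .nil .nil)⟩,
  ⟨.x, T0, (.node (.ofNat 0) (.node (.ofNat 0) (K (.ofNat 125378992)) (K (.ofNat 28256848)) .nil .nil) (.node (.ofNat 0) (K (.ofNat 99935664)) (K (.ofNat 2479840)) .nil .nil) .nil .nil)⟩,
  ⟨.z, T9, (.node (.ofNat 0) (K (.negSucc 20424975)) (K (.negSucc 1431935)) .nil .nil)⟩,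
  ⟨.z, T10, (.node (.ofNat 0) (K (.ofNat 43516848)) (K (.negSucc 28362815)) .nil .nil)⟩,
  ⟨.x, T4, (.node (.ofNat 0) (K (.negSucc 55965679)) (K (.negSucc 15630975)) .nil .nil)⟩,
  ⟨.x, T9, (.node (.ofNat 0) .nil .nil (K (.negSucc 29260787)) (K (.negSucc 19278411)))⟩,
  ⟨.x, T10, (.node (.ofNat 0) .nil .nil (K (.negSucc 37299467)) (K (.negSucc 24281855)))⟩,
  ⟨.z, T18, (K (.negSucc 590975))⟩,
  ⟨.z, T19, (K (.negSucc 26930879))⟩,
  ⟨.z, T20, (K (.ofNat 2505600))⟩,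
  ⟨.x, T12, (K (.negSucc 26277695))⟩] c_prr c_prl c_prp c_prq)
def c_plr : Cert := (.node [⟨.x, .z, (.node (.ofNat 0) (.node (.ofNat 0) (K (.negSucc 129267199)) (K (.ofNat 154948946)) .nil .nil) (.node (.ofNat 0) (K (.ofNat 139440472)) (K (.ofNat 289601808)) .nil .nil) .nil .nil)⟩,
  ⟨.z, T2, (.node (.ofNat 0) (K (.negSucc 144280631)) (K (.negSucc 222379383)) .nil .nil)⟩,
  ⟨.x, T0, (.node (.ofNat 0) (K (.negSucc 540447909)) (K (.negSucc 379453017)) .nil .nil)⟩,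
  ⟨.z, T9, (K (.negSucc 98314663))⟩,
  ⟨.z, T10, (K (.ofNat 44551344))⟩,
  ⟨.x, T3, (K (.ofNat 8951952))⟩,
  ⟨.x, T4, (K (.negSucc 67609287))⟩] (.node [⟨.x, .z, (.node (.ofNat 0) .nil (K (.negSucc 1078584749)) .nil .nil)⟩,
  ⟨.z, T2, (K (.negSucc 77044889))⟩,
  ⟨.x, T0, (K (.ofNat 735243108))⟩] (.node [⟨.x, .z, (K (.negSucc 630467301))⟩] .nil .nil .nil .nil) (.node [⟨.x, .z, (K (.ofNat 594445032))⟩] .nil .nil .nil .nil) .nil .nil) (.node [⟨.x, .z, (.node (.ofNat 0) (K (.ofNat 583867042)) (K (.negSucc 1168742657)) .nil .nil)⟩,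
  ⟨.x, T0, (K (.ofNat 182827572))⟩] (.node [⟨.x, .z, (K (.ofNat 349296762))⟩] .nil .nil .nil .nil) (.node [⟨.x, .z, (K (.ofNat 459597042))⟩] .nil .nil .nil .nil) .nil .nil) .nil .nil)
def c_pll : Cert := (.node [⟨.x, .z, (.node (.ofNat 0) (.node (.ofNat 0) (K (.negSucc 356672201)) (K (.ofNat 533292850)) .nil .nil) (.node (.ofNat 0) (K (.ofNat 57753304)) (K (.ofNat 529806616)) .nil .nil) .nil .nil)⟩,
  ⟨.z, T2, (.node (.ofNat 0) (K (.ofNat 110371176)) (K (.negSucc 354406063)) .nil .nil)⟩,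
  ⟨.x, T3, (K (.ofNat 17043792))⟩] (.node [⟨.x, .z, (.node (.ofNat 0) .nil (K (.negSucc 537749583)) .nil .nil)⟩,
  ⟨.z, T2, (K (.ofNat 377277448))⟩,
  ⟨.x, T0, (K (.ofNat 651686406))⟩] (.node [⟨.x, .z, (K (.ofNat 381207596))⟩] .nil .nil .nil .nil) (.node [⟨.x, .z, (K (.ofNat 616788785))⟩] .nil .nil .nil .nil) .nil .nil) (.node [⟨.x, .z, (.node (.ofNat 0) (K (.negSucc 225802623)) .nil .nil .nil)⟩,
  ⟨.z, T2, (K (.negSucc 15920487))⟩] (.node [⟨.x, .z, (K (.negSucc 182719873))⟩] .nil .nil .nil .nil) (.node [⟨.x, .z, (K (.negSucc 62307239))⟩] .nil .nil .nil .nil) .nil .nil) .nil .nil)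
def c_plq : Cert := (.node [⟨.x, T10, (K (.ofNat 71687248))⟩] .nil .nil .nil .nil)
def c_pl : Cert := (.node [⟨.x, .z, (.node (.ofNat 0) (.node (.ofNat 0) (.node (.ofNat 0) .nil (K (.ofNat 188105920)) .nil .nil) (.node (.ofNat 0) (K (.negSucc 16367295)) (K (.ofNat 528981626)) .nil .nil) .nil .nil) (.node (.ofNat 0) (.node (.ofNat 0) (K (.negSucc 172730733)) (K (.negSucc 177153111)) .nil .nil) (.node (.ofNat 0) (K (.ofNat 78399527)) (K (.negSucc 161941447)) .nil .nil) .nil .nil) .nil .nil)⟩,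
  ⟨.z, T2, (.node (.ofNat 0) (.node (.ofNat 0) (K (.ofNat 215594998)) (K (.negSucc 54558463)) .nil .nil) (.node (.ofNat 0) (K (.ofNat 72155904)) (K (.ofNat 66323296)) .nil .nil) .nil .nil)⟩,
  ⟨.x, T0, (.node (.ofNat 0) (.node (.ofNat 0) (K (.ofNat 277864648)) .nil .nil .nil) (.node (.ofNat 0) (K (.ofNat 111439360)) (K (.negSucc 32937191)) .nil .nil) .nil .nil)⟩,
  ⟨.z, T9, (.node (.ofNat 0) (K (.negSucc 37107743)) (K (.ofNat 62279472)) .nil .nil)⟩,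
  ⟨.z, T10, (.node (.ofNat 0) (K (.negSucc 63125807)) .nil .nil .nil)⟩,
  ⟨.x, T4, (.node (.ofNat 0) .nil (K (.ofNat 158885168)) .nil .nil)⟩,
  ⟨.x, T9, (.node (.ofNat 0) .nil .nil (K (.negSucc 33641258)) .nil)⟩,
  ⟨.x, T10, (.node (.ofNat 0) .nil .nil (K (.negSucc 46472299)) .nil)⟩,
  ⟨.z, T18, (K (.ofNat 11565216))⟩,
  ⟨.z, T19, (K (.ofNat 9498816))⟩,
  ⟨.x, T12, (K (.negSucc 20604383))⟩,
  ⟨.x, T30, (K (.negSucc 2617919))⟩] c_plr c_pll .nil c_plq)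
def c_ppr : Cert := (.node [⟨.x, T9, (K (.ofNat 4575288))⟩,
  ⟨.x, T10, (K (.ofNat 523584))⟩] .nil .nil .nil .nil)
def c_ppl : Cert := (.node [⟨.x, T9, (K (.negSucc 23360426))⟩] .nil .nil .nil .nil)
def c_pp : Cert := (.node [⟨.x, T9, (.node (.ofNat 0) (K (.ofNat 66771012)) (K (.ofNat 83569088)) .nil .nil)⟩,
  ⟨.x, T10, (.node (.ofNat 0) (K (.negSucc 7747235)) (K (.ofNat 312192)) .nil .nil)⟩,
  ⟨.x, T18, (K (.negSucc 3762047))⟩,
  ⟨.x, T20, (K (.negSucc 2318975))⟩] c_ppr c_ppl .nil .nil)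
def c_pqr : Cert := (.node [⟨.x, T10, (K (.ofNat 22441212))⟩] .nil .nil .nil .nil)
def c_pql : Cert := (.node [⟨.x, T10, (K (.ofNat 47367960))⟩] .nil .nil .nil .nil)
def c_pq : Cert := (.node [⟨.x, T9, (.node (.ofNat 0) (K (.ofNat 45008640)) (K (.ofNat 15223932)) .nil .nil)⟩,
  ⟨.x, T10, (.node (.ofNat 0) (K (.ofNat 62414464)) (K (.ofNat 29630676)) .nil .nil)⟩,
  ⟨.x, T18, (K (.ofNat 38573328))⟩,
  ⟨.x, T20, (K (.negSucc 45707999))⟩] c_pqr c_pql .nil .nil)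
def c_p : Cert := (.node [⟨.x, .z, (.node (.ofNat 0) (.node (.ofNat 0) (.node (.ofNat 0) (.node (.ofNat 0) (K (.ofNat 72647344)) (K (.negSucc 121204447)) .nil .nil) (.node (.ofNat 0) (K (.negSucc 13804762)) (K (.negSucc 84087791)) .nil .nil) .nil .nil) (.node (.ofNat 0) (.node (.ofNat 0) (K (.negSucc 176699372)) (K (.ofNat 60626022)) .nil .nil) (.node (.ofNat 0) (K (.ofNat 291245451)) (K (.ofNat 240811704)) .nil .nil) .nil .nil) .nil .nil) (.node (.ofNat 0) (.node (.ofNat 0) (.node (.ofNat 0) (K (.ofNat 118426622)) (K (.negSucc 89583740)) .nil .nil) (.node (.ofNat 0) (K (.ofNat 56035910)) (K (.negSucc 75747258)) .nil .nil) .nil .nil) (.node (.ofNat 0) (.node (.ofNat 0) (K (.ofNat 346438910)) (K (.ofNat 140697795)) .nil .nil) (.node (.ofNat 0) (K (.ofNat 302166622)) (K (.ofNat 286848)) .nil .nil) .nil .nil) .nil .nil) .nil .nil)⟩,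
  ⟨.z, T2, (.node (.ofNat 0) (.node (.ofNat 0) (.node (.ofNat 0) (K (.negSucc 345756887)) .nil .nil .nil) .nil .nil .nil) (.node (.ofNat 0) (.node (.ofNat 0) (K (.negSucc 428059599)) (K (.negSucc 243526807)) .nil .nil) (.node (.ofNat 0) (K (.negSucc 144635559)) .nil .nil .nil) .nil .nil) .nil .nil)⟩,
  ⟨.x, T0, (.node (.ofNat 0) (.node (.ofNat 0) (.node (.ofNat 0) (K (.negSucc 48080407)) (K (.ofNat 88160440)) .nil .nil) (.node (.ofNat 0) (K (.ofNat 149247136)) (K (.ofNat 79404256)) .nil .nil) .nil .nil) (.node (.ofNat 0) (.node (.ofNat 0) (K (.negSucc 120172399)) (K (.negSucc 144176103)) .nil .nil) (.node (.ofNat 0) (K (.negSucc 143594663)) (K (.negSucc 94175063)) .nil .nil) .nil .nil) .nil .nil)⟩,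
  ⟨.z, T9, (.node (.ofNat 0) (.node (.ofNat 0) (K (.negSucc 15475063)) (K (.negSucc 67705495)) .nil .nil) (.node (.ofNat 0) (K (.negSucc 29130839)) (K (.negSucc 3567167)) .nil .nil) .nil .nil)⟩,
  ⟨.z, T10, (.node (.ofNat 0) (.node (.ofNat 0) (K (.ofNat 47776504)) (K (.negSucc 76871)) .nil .nil) (.node (.ofNat 0) (K (.negSucc 20340599)) (K (.negSucc 12136895)) .nil .nil) .nil .nil)⟩,
  ⟨.x, T4, (.node (.ofNat 0) (.node (.ofNat 0) (K (.negSucc 205330263)) (K (.ofNat 481504)) .nil .nil) (.node (.ofNat 0) (K (.negSucc 22849935)) (K (.ofNat 93888216)) .nil .nil) .nil .nil)⟩,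
  ⟨.x, T9, (.node (.ofNat 0) (.node (.ofNat 0) .nil .nil (K (.ofNat 54593643)) (K (.ofNat 37387771))) (.node (.ofNat 0) .nil .nil .nil (K (.negSucc 79183503))) (.node (.ofNat 0) (K (.ofNat 20810160)) (K (.negSucc 23773003)) .nil .nil) (.node (.ofNat 0) (K (.ofNat 39917536)) (K (.negSucc 76037391)) .nil .nil))⟩,
  ⟨.x, T10, (.node (.ofNat 0) (.node (.ofNat 0) .nil .nil (K (.ofNat 447123)) (K (.negSucc 15281768))) (.node (.ofNat 0) .nil .nil (K (.negSucc 3358295)) (K (.ofNat 1702080))) (.node (.ofNat 0) (K (.negSucc 67976415)) (K (.negSucc 45411755)) .nil .nil) (.node (.ofNat 0) .nil (K (.negSucc 13260671)) .nil .nil))⟩,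
  ⟨.z, T18, (.node (.ofNat 0) (K (.negSucc 6669071)) (K (.negSucc 3037247)) .nil .nil)⟩,
  ⟨.z, T19, (.node (.ofNat 0) (K (.ofNat 23563296)) (K (.negSucc 13543487)) .nil .nil)⟩,
  ⟨.z, T20, (.node (.ofNat 0) (K (.ofNat 1254528)) (K (.ofNat 279936)) .nil .nil)⟩,
  ⟨.x, T11, (.node (.ofNat 0) (K (.ofNat 2364624)) (K (.negSucc 2168639)) .nil .nil)⟩,
  ⟨.x, T12, (.node (.ofNat 0) .nil (K (.negSucc 12153023)) .nil .nil)⟩,
  ⟨.x, T18, (.node (.ofNat 0) .nil .nil (K (.ofNat 3057702)) (K (.negSucc 58955213)))⟩,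
  ⟨.x, T20, (.node (.ofNat 0) .nil .nil (K (.negSucc 16384415)) (K (.ofNat 2623104)))⟩,
  ⟨.z, T26, (K (.ofNat 1088640))⟩,
  ⟨.z, T27, (K (.ofNat 331776))⟩,
  ⟨.z, T28, (K (.negSucc 1804031))⟩,
  ⟨.x, T23, (K (.negSucc 1430783))⟩] c_pr c_pl c_pp c_pq)
def c_qrr : Cert := (.node [⟨.x, .z, (.node (.ofNat 0) (.node (.ofNat 0) (K (.ofNat 484523108)) (K (.ofNat 117327574)) .nil .nil) (.node (.ofNat 0) (K (.negSucc 157285739)) (K (.ofNat 131269872)) .nil .nil) .nil .nil)⟩,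
  ⟨.z, T2, (.node (.ofNat 0) (K (.ofNat 72094818)) (K (.negSucc 145917279)) .nil .nil)⟩,
  ⟨.z, T10, (K (.negSucc 22619999))⟩,
  ⟨.x, T4, (K (.ofNat 160741010))⟩] (.node [⟨.x, .z, (.node (.ofNat 0) (K (.negSucc 1472465337)) (K (.ofNat 666955828)) .nil .nil)⟩,
  ⟨.z, T2, (K (.ofNat 372424436))⟩,
  ⟨.x, T0, (K (.negSucc 200943443))⟩] (.node [⟨.x, .z, (K (.ofNat 1120724648))⟩] .nil .nil .nil .nil) .nil .nil .nil) (.node [⟨.x, .z, (.node (.ofNat 0) (K (.negSucc 540250329)) (K (.ofNat 725437066)) .nil .nil)⟩,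
  ⟨.z, T2, (K (.ofNat 74549006))⟩] (.node [⟨.x, .z, (K (.negSucc 844052867))⟩] .nil .nil .nil .nil) (.node [⟨.x, .z, (K (.negSucc 1347987523))⟩] .nil .nil .nil .nil) .nil .nil) .nil .nil)
def c_qrl : Cert := (.node [⟨.x, .z, (.node (.ofNat 0) (.node (.ofNat 0) (K (.ofNat 975938054)) (K (.negSucc 244806825)) .nil .nil) (.node (.ofNat 0) (K (.negSucc 36668761)) (K (.negSucc 262303717)) .nil .nil) .nil .nil)⟩,
  ⟨.z, T2, (.node (.ofNat 0) (K (.negSucc 103419623)) .nil .nil .nil)⟩,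
  ⟨.x, T0, (.node (.ofNat 0) (K (.negSucc 479201397)) (K (.negSucc 426880647)) .nil .nil)⟩,
  ⟨.z, T9, (K (.negSucc 90938557))⟩,
  ⟨.z, T10, (K (.ofNat 88187410))⟩] (.node [⟨.x, .z, (.node (.ofNat 0) (K (.negSucc 1494202611)) (K (.ofNat 63224162)) .nil .nil)⟩,
  ⟨.z, T2, (K (.ofNat 59458790))⟩,
  ⟨.x, T0, (K (.ofNat 34987558))⟩] (.node [⟨.x, .z, (K (.ofNat 188203564))⟩] .nil .nil .nil .nil) (.node [⟨.x, .z, (K (.ofNat 36133241))⟩] .nil .nil .nil .nil) .nil .nil) (.node [⟨.x, .z, (.node (.ofNat 0) (K (.ofNat 408811576)) (K (.negSucc 121643269)) .nil .nil)⟩,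
  ⟨.z, T2, (K (.ofNat 16706346))⟩,
  ⟨.x, T0, (K (.negSucc 53031635))⟩] (.node [⟨.x, .z, (K (.negSucc 384106271))⟩] .nil .nil .nil .nil) (.node [⟨.x, .z, (K (.negSucc 1005977179))⟩] .nil .nil .nil .nil) .nil .nil) .nil .nil)
def c_qrp : Cert := (.node [⟨.x, T9, (K (.negSucc 75543903))⟩,
  ⟨.x, T10, (K (.ofNat 8706924))⟩] .nil .nil .nil .nil)
def c_qrq : Cert := (.node [⟨.x, T9, (K (.negSucc 47855558))⟩,
  ⟨.x, T10, (K (.negSucc 74753971))⟩] .nil .nil .nil .nil)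
def c_qr : Cert := (.node [⟨.x, .z, (.node (.ofNat 0) (.node (.ofNat 0) (.node (.ofNat 0) (K (.negSucc 164757807)) (K (.negSucc 223095479)) .nil .nil) (.node (.ofNat 0) (K (.ofNat 106123096)) (K (.negSucc 351250545)) .nil .nil) .nil .nil) (.node (.ofNat 0) (.node (.ofNat 0) (K (.ofNat 185596910)) (K (.ofNat 122464096)) .nil .nil) (.node (.ofNat 0) (K (.negSucc 20422782)) (K (.ofNat 123552448)) .nil .nil) .nil .nil) .nil .nil)⟩,
  ⟨.z, T2, (.node (.ofNat 0) (.node (.ofNat 0) (K (.ofNat 38701042)) (K (.ofNat 312861488)) .nil .nil) .nil .nil .nil)⟩,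
  ⟨.x, T0, (.node (.ofNat 0) (.node (.ofNat 0) (K (.negSucc 122256759)) (K (.negSucc 30152559)) .nil .nil) (.node (.ofNat 0) (K (.negSucc 180877311)) (K (.negSucc 204623271)) .nil .nil) .nil .nil)⟩,
  ⟨.z, T9, (.node (.ofNat 0) (K (.ofNat 27019712)) (K (.negSucc 135445311)) .nil .nil)⟩,
  ⟨.z, T10, (.node (.ofNat 0) (K (.negSucc 74896423)) (K (.negSucc 4293551)) .nil .nil)⟩,
  ⟨.x, T3, (.node (.ofNat 0) .nil (K (.negSucc 136873823)) .nil .nil)⟩,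
  ⟨.x, T4, (.node (.ofNat 0) (K (.ofNat 29901328)) .nil .nil .nil)⟩,
  ⟨.x, T9, (.node (.ofNat 0) .nil .nil (K (.ofNat 117693453)) (K (.negSucc 4964104)))⟩,
  ⟨.x, T10, (.node (.ofNat 0) .nil .nil (K (.ofNat 56337096)) (K (.negSucc 40226720)))⟩,
  ⟨.z, T18, (K (.negSucc 1308671))⟩,
  ⟨.x, T11, (K (.ofNat 11232000))⟩,
  ⟨.x, T12, (K (.ofNat 1595520))⟩,
  ⟨.x, T30, (K (.negSucc 642815))⟩] c_qrr c_qrl c_qrp c_qrq)
def c_qlr : Cert := (.node [⟨.x, .z, (.node (.ofNat 0) (.node (.ofNat 0) (K (.ofNat 494399414)) (K (.ofNat 135649728)) .nil .nil) (.node (.ofNat 0) (K (.ofNat 164471280)) (K (.negSucc 723597)) .nil .nil) .nil .nil)⟩,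
  ⟨.z, T2, (.node (.ofNat 0) .nil (K (.negSucc 232171383)) .nil .nil)⟩,
  ⟨.x, T0, (.node (.ofNat 0) (K (.negSucc 303260311)) (K (.negSucc 250034871)) .nil .nil)⟩,
  ⟨.z, T9, (K (.ofNat 47992410))⟩,
  ⟨.z, T10, (K (.ofNat 43400154))⟩,
  ⟨.x, T4, (K (.ofNat 49323424))⟩] (.node [⟨.x, .z, (.node (.ofNat 0) (K (.negSucc 574865149)) (K (.negSucc 243786277)) .nil .nil)⟩,
  ⟨.z, T2, (K (.ofNat 236153942))⟩,
  ⟨.x, T0, (K (.ofNat 238408350))⟩] (.node [⟨.x, .z, (K (.ofNat 159099800))⟩] .nil .nil .nil .nil) (.node [⟨.x, .z, (K (.ofNat 351910856))⟩] .nil .nil .nil .nil) .nil .nil) (.node [⟨.x, .z, (.node (.ofNat 0) (K (.negSucc 47553739)) (K (.negSucc 29382355)) .nil .nil)⟩,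
  ⟨.x, T0, (K (.negSucc 98142475))⟩] (.node [⟨.x, .z, (K (.ofNat 13843730))⟩] .nil .nil .nil .nil) (.node [⟨.x, .z, (K (.negSucc 397613777))⟩] .nil .nil .nil .nil) .nil .nil) .nil .nil)
def c_qll : Cert := (.node [⟨.x, .z, (.node (.ofNat 0) (.node (.ofNat 0) (K (.ofNat 274955296)) (K (.negSucc 29731631)) .nil .nil) (.node (.ofNat 0) (K (.ofNat 111229002)) (K (.negSucc 118675965)) .nil .nil) .nil .nil)⟩,
  ⟨.z, T2, (.node (.ofNat 0) (K (.negSucc 36714065)) (K (.negSucc 69039631)) .nil .nil)⟩,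
  ⟨.x, T0, (.node (.ofNat 0) (K (.ofNat 31188368)) (K (.negSucc 19586677)) .nil .nil)⟩,
  ⟨.z, T9, (K (.ofNat 70260914))⟩,
  ⟨.z, T10, (K (.ofNat 68273714))⟩,
  ⟨.x, T4, (K (.negSucc 65927089))⟩] (.node [⟨.x, .z, (.node (.ofNat 0) (K (.ofNat 121587828)) (K (.ofNat 109194070)) .nil .nil)⟩,
  ⟨.z, T2, (K (.ofNat 102176424))⟩,
  ⟨.x, T0, (K (.negSucc 190976045))⟩] (.node [⟨.x, .z, (K (.negSucc 8224935))⟩] .nil .nil .nil .nil) (.node [⟨.x, .z, (K (.ofNat 70847722))⟩] .nil .nil .nil .nil) .nil .nil) (.node [⟨.x, .z, (.node (.ofNat 0) (K (.negSucc 64341399)) (K (.ofNat 112396298)) .nil .nil)⟩,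
  ⟨.z, T2, (K (.ofNat 65927090))⟩,
  ⟨.x, T0, (K (.ofNat 35995832))⟩] (.node [⟨.x, .z, (K (.negSucc 12539183))⟩] .nil .nil .nil .nil) (.node [⟨.x, .z, (K (.negSucc 69697585))⟩] .nil .nil .nil .nil) .nil .nil) .nil .nil)
def c_qlp : Cert := (.node [⟨.x, T9, (K (.ofNat 1146333))⟩,
  ⟨.x, T10, (K (.negSucc 35787938))⟩] .nil .nil .nil .nil)
def c_qlq : Cert := (.node [⟨.x, T9, (K (.negSucc 1102463))⟩,
  ⟨.x, T10, (K (.negSucc 22356823))⟩] .nil .nil .nil .nil)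
def c_ql : Cert := (.node [⟨.x, .z, (.node (.ofNat 0) (.node (.ofNat 0) (.node (.ofNat 0) (K (.ofNat 468392190)) (K (.negSucc 243693311)) .nil .nil) (.node (.ofNat 0) (K (.ofNat 200654248)) (K (.negSucc 250692269)) .nil .nil) .nil .nil) (.node (.ofNat 0) (.node (.ofNat 0) (K (.ofNat 96605512)) (K (.negSucc 107684871)) .nil .nil) (.node (.ofNat 0) (K (.ofNat 89776368)) (K (.negSucc 32393623)) .nil .nil) .nil .nil) .nil .nil)⟩,
  ⟨.z, T2, (.node (.ofNat 0) (.node (.ofNat 0) (K (.negSucc 271290077)) (K (.ofNat 213997856)) .nil .nil) (.node (.ofNat 0) (K (.ofNat 7297512)) (K (.ofNat 158051822)) .nil .nil) .nil .nil)⟩,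
  ⟨.x, T0, (.node (.ofNat 0) (.node (.ofNat 0) (K (.negSucc 278987469)) (K (.ofNat 152737584)) .nil .nil) (.node (.ofNat 0) (K (.negSucc 104128895)) (K (.ofNat 82822062)) .nil .nil) .nil .nil)⟩,
  ⟨.z, T9, (.node (.ofNat 0) (K (.ofNat 32861408)) (K (.negSucc 81822703)) .nil .nil)⟩,
  ⟨.z, T10, (.node (.ofNat 0) (K (.ofNat 29543648)) (K (.negSucc 48415895)) .nil .nil)⟩,
  ⟨.x, T4, (.node (.ofNat 0) (K (.negSucc 31559647)) (K (.ofNat 69039632)) .nil .nil)⟩,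
  ⟨.x, T9, (.node (.ofNat 0) .nil .nil (K (.ofNat 41099424)) (K (.negSucc 51694538)))⟩,
  ⟨.x, T10, (.node (.ofNat 0) .nil .nil (K (.ofNat 11932334)) (K (.ofNat 14668785)))⟩,
  ⟨.z, T18, (K (.ofNat 1918080))⟩,
  ⟨.z, T19, (K (.negSucc 2443391))⟩,
  ⟨.x, T11, (K (.negSucc 1987199))⟩] c_qlr c_qll c_qlp c_qlq)
def c_qpr : Cert := (.node [⟨.x, T9, (K (.negSucc 55810166))⟩,
  ⟨.x, T10, (K (.negSucc 34445999))⟩] .nil .nil .nil .nil)
def c_qp : Cert := (.node [⟨.x, T9, (.node (.ofNat 0) (K (.ofNat 30315405)) (K (.negSucc 741655)) .nil .nil)⟩,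
  ⟨.x, T10, (.node (.ofNat 0) (K (.ofNat 13079085)) (K (.negSucc 15232511)) .nil .nil)⟩,
  ⟨.x, T18, (K (.ofNat 57242730))⟩,
  ⟨.x, T20, (K (.negSucc 30515903))⟩] c_qpr .nil .nil .nil)
def c_qqr : Cert := (.node [⟨.x, T10, (K (.ofNat 19398765))⟩] .nil .nil .nil .nil)
def c_qql : Cert := (.node [⟨.x, T9, (K (.ofNat 17638122))⟩,
  ⟨.x, T10, (K (.negSucc 10634639))⟩] .nil .nil .nil .nil)
def c_qq : Cert := (.node [⟨.x, T9, (.node (.ofNat 0) (K (.negSucc 29797331)) (K (.negSucc 3116204)) .nil .nil)⟩,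
  ⟨.x, T10, (.node (.ofNat 0) (K (.negSucc 67360461)) (K (.ofNat 57610341)) .nil .nil)⟩,
  ⟨.x, T18, (K (.negSucc 16476905))⟩,
  ⟨.x, T20, (K (.ofNat 32152020))⟩] c_qqr c_qql .nil .nil)
def c_q : Cert := (.node [⟨.x, .z, (.node (.ofNat 0) (.node (.ofNat 0) (.node (.ofNat 0) (.node (.ofNat 0) (K (.negSucc 405876743)) (K (.ofNat 170497568)) .nil .nil) (.node (.ofNat 0) (K (.negSucc 10942883)) (K (.ofNat 247800968)) .nil .nil) .nil .nil) (.node (.ofNat 0) (.node (.ofNat 0) (K (.negSucc 162819397)) (K (.negSucc 141538383)) .nil .nil) (.node (.ofNat 0) (K (.negSucc 62884107)) (K (.ofNat 137706978)) .nil .nil) .nil .nil) .nil .nil) (.node (.ofNat 0) (.node (.ofNat 0) (.node (.ofNat 0) (K (.negSucc 186304457)) (K (.ofNat 73118142)) .nil .nil) (.node (.ofNat 0) (K (.negSucc 124503235)) (K (.ofNat 261866184)) .nil .nil) .nil .nil) (.node (.ofNat 0) (.node (.ofNat 0) (K (.ofNat 142503228)) (K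 (.negSucc 68887783)) .nil .nil) (.node (.ofNat 0) (K (.negSucc 160246929)) (K (.ofNat 22812242)) .nil .nil) .nil .nil) .nil .nil) .nil .nil)⟩,
  ⟨.z, T2, (.node (.ofNat 0) (.node (.ofNat 0) (.node (.ofNat 0) (K (.ofNat 86181166)) (K (.negSucc 76771991)) .nil .nil) (.node (.ofNat 0) (K (.ofNat 248154368)) (K (.negSucc 37432619)) .nil .nil) .nil .nil) (.node (.ofNat 0) (.node (.ofNat 0) (K (.ofNat 311801174)) (K (.negSucc 75708451)) .nil .nil) (.node (.ofNat 0) (K (.ofNat 153706394)) (K (.negSucc 104461953)) .nil .nil) .nil .nil) .nil .nil)⟩,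
  ⟨.x, T0, (.node (.ofNat 0) (.node (.ofNat 0) (.node (.ofNat 0) (K (.ofNat 176599706)) (K (.negSucc 12967617)) .nil .nil) (.node (.ofNat 0) (K (.negSucc 19288227)) (K (.negSucc 79514883)) .nil .nil) .nil .nil) (.node (.ofNat 0) (.node (.ofNat 0) (K (.ofNat 83414006)) (K (.ofNat 201515644)) .nil .nil) (.node (.ofNat 0) (K (.ofNat 12946410)) (K (.ofNat 4046652)) .nil .nil) .nil .nil) .nil .nil)⟩,
  ⟨.z, T9, (.node (.ofNat 0) (.node (.ofNat 0) (K (.negSucc 240823293)) (K (.ofNat 21562762)) .nil .nil) (.node (.ofNat 0) (K (.negSucc 163108293)) (K (.ofNat 16765936)) .nil .nil) .nil .nil)⟩,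
  ⟨.z, T10, (.node (.ofNat 0) (.node (.ofNat 0) (K (.negSucc 239615613)) (K (.ofNat 136493746)) .nil .nil) (.node (.ofNat 0) (K (.ofNat 49385418)) (K (.ofNat 73576768)) .nil .nil) .nil .nil)⟩,
  ⟨.x, T3, (.node (.ofNat 0) .nil (.node (.ofNat 0) (K (.negSucc 92242751)) .nil .nil .nil) .nil .nil)⟩,
  ⟨.x, T4, (.node (.ofNat 0) (.node (.ofNat 0) (K (.ofNat 239192446)) (K (.negSucc 118365015)) .nil .nil) (.node (.ofNat 0) (K (.ofNat 133121800)) (K (.negSucc 136130453)) .nil .nil) .nil .nil)⟩,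
  ⟨.x, T9, (.node (.ofNat 0) (.node (.ofNat 0) .nil .nil (K (.negSucc 68808575)) (K (.ofNat 86115078))) (.node (.ofNat 0) .nil .nil (K (.negSucc 56681537)) (K (.ofNat 48805659))) (.node (.ofNat 0) (K (.negSucc 7292159)) .nil .nil .nil) (.node (.ofNat 0) (K (.ofNat 13784733)) (K (.ofNat 16409192)) .nil .nil))⟩,
  ⟨.x, T10, (.node (.ofNat 0) (.node (.ofNat 0) .nil .nil (K (.ofNat 81645890)) .nil) (.node (.ofNat 0) .nil .nil (K (.ofNat 17987038)) (K (.negSucc 180542384))) (.node (.ofNat 0) (K (.ofNat 107885000)) (K (.ofNat 11064886)) .nil .nil) (.node (.ofNat 0) (K (.ofNat 105045091)) (K (.ofNat 20475504)) .nil .nil))⟩,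
  ⟨.z, T18, (.node (.ofNat 0) (K (.negSucc 4437503)) (K (.negSucc 696959)) .nil .nil)⟩,
  ⟨.z, T19, (.node (.ofNat 0) (K (.negSucc 4650623)) (K (.ofNat 16912800)) .nil .nil)⟩,
  ⟨.z, T20, (.node (.ofNat 0) (K (.ofNat 4241664)) (K (.ofNat 2284416)) .nil .nil)⟩,
  ⟨.x, T11, (.node (.ofNat 0) .nil (K (.ofNat 10900224)) .nil .nil)⟩,
  ⟨.x, T12, (.node (.ofNat 0) (K (.ofNat 3214080)) (K (.ofNat 2525184)) .nil .nil)⟩,
  ⟨.x, T18, (.node (.ofNat 0) .nil .nil (K (.negSucc 41334431)) (K (.ofNat 68567880)))⟩,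
  ⟨.x, T20, (.node (.ofNat 0) .nil .nil (K (.ofNat 83201088)) (K (.negSucc 86215355)))⟩,
  ⟨.z, T26, (K (.ofNat 31104))⟩,
  ⟨.z, T27, (K (.ofNat 466560))⟩,
  ⟨.z, T28, (K (.ofNat 1886976))⟩,
  ⟨.x, T22, (K (.ofNat 352512))⟩,
  ⟨.x, T23, (K (.ofNat 1430784))⟩] c_qr c_ql c_qp c_qq)

def cert : Cert := (.node [⟨.x, .z, (.node (.ofNat 0) (.node (.ofNat 0) (.node (.ofNat 0) (.node (.ofNat 0) (.node (.ofNat 0) .nil .nil (K (.negSucc 14265015)) (K (.negSucc 1663082867))) (.node (.ofNat 0) .nil .nil (K (.ofNat 553662598)) (K (.negSucc 1009275757))) (.node (.ofNat 0) (K (.negSucc 70536607)) (K (.ofNat 806165494)) .nil .nil) .nil) (.node (.ofNat 0) (.node (.ofNat 0) .nil .nil (K (.negSucc 13460362)) (K (.negSucc 480898289))) (.node (.ofNat 0) .nil .nil (K (.negSucc 311476415)) (K (.negSucc 421172631))) (.node (.ofNat 0) (K (.negSucc 1014738413)) (K (.ofNat 1068237264)) .nil .nil) (.node (.ofNat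 0) (K (.ofNat 633689854)) (K (.ofNat 300273962)) .nil .nil)) (.node (.ofNat 0) (.node (.ofNat 0) (K (.ofNat 242409360)) (K (.ofNat 841797902)) .nil .nil) (.node (.ofNat 0) (K (.negSucc 539434351)) (K (.ofNat 1143029064)) .nil .nil) .nil .nil) (.node (.ofNat 0) (.node (.ofNat 0) (K (.ofNat 897672572)) .nil .nil .nil) (.node (.ofNat 0) (K (.negSucc 46630533)) (K (.negSucc 212537793)) .nil .nil) .nil .nil)) (.node (.ofNat 0) (.node (.ofNat 0) (.node (.ofNat 0) .nil .nil (K (.ofNat 121636405)) (K (.ofNat 473065478))) (.node (.ofNat 0) .nil .nil .nil (K (.negSucc 101941355))) (.node (.ofNat 0) (K (.ofNat 380567760)) (K (.negSucc 261288699)) .nil .nil) (.node (.ofNat 0) (K (.ofNat 1581514956)) (K (.negSucc 867533299)) .nil .nil)) (.node (.ofNat 0) (.node (.ofNat 0) .nil .nil (K (.ofNat 296858545)) (K (.ofNat 983205050))) (.node (.ofNat 0) .nil .nil (K (.negSucc 427993325)) (K (.negSucc 303490809)))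 (.node (.ofNat 0) (K (.negSucc 494960979)) (K (.ofNat 163803542)) .nil .nil) (.node (.ofNat 0) (K (.ofNat 995293442)) (K (.negSucc 20321727)) .nil .nil)) (.node (.ofNat 0) (.node (.ofNat 0) (K (.ofNat 554034132)) (K (.ofNat 138418892)) .nil .nil) (.node (.ofNat 0) (K (.negSucc 588254871)) (K (.ofNat 863353138)) .nil .nil) .nil .nil) (.node (.ofNat 0) (.node (.ofNat 0) (K (.ofNat 988931684)) (K (.negSucc 1022957499)) .nil .nil) (.node (.ofNat 0) (K (.ofNat 121746114)) (K (.negSucc 58185687)) .nil .nil) .nil .nil)) (.node (.ofNat 0) (.node (.ofNat 0) (.node (.ofNat 0) (K (.ofNat 168442528)) (K (.negSucc 224654887)) .nil .nil) (.node (.ofNat 0) (K (.negSucc 302022309)) (K (.negSucc 544154753)) .nil .nil) .nil .nil) (.node (.ofNat 0) (.node (.ofNat 0) .nil (K (.negSucc 125819337)) .nil .nil) .nil .nil .nil) .nil .nil) (.node (.ofNat 0) (.node (.ofNat 0) (.node (.ofNat 0) (K (.negSucc 334968485))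 (K (.ofNat 50605080)) .nil .nil) (.node (.ofNat 0) (K (.negSucc 303159389)) .nil .nil .nil) .nil .nil) (.node (.ofNat 0) (.node (.ofNat 0) (K (.ofNat 207828330)) .nil .nil .nil) (.node (.ofNat 0) (K (.ofNat 390688559)) .nil .nil .nil) .nil .nil) .nil .nil)) (.node (.ofNat 0) (.node (.ofNat 0) (.node (.ofNat 0) (.node (.ofNat 0) .nil .nil (K (.ofNat 18364224)) .nil) (.node (.ofNat 0) .nil .nil (K (.ofNat 102212621)) (K (.negSucc 76092955))) (.node (.ofNat 0) (K (.negSucc 77999615)) (K (.negSucc 260448043)) .nil .nil) (.node (.ofNat 0) (K (.ofNat 662628188)) (K (.negSucc 353322585)) .nil .nil)) (.node (.ofNat 0) (.node (.ofNat 0) .nil .nil (K (.ofNat 519002386)) (K (.ofNat 92282711))) (.node (.ofNat 0) .nil .nil .nil (K (.negSucc 276993247))) (.node (.ofNat 0) (K (.negSucc 736276469)) (K (.ofNat 94239543)) .nil .nil) (.node (.ofNat 0) (K (.ofNat 242296585)) (K (.negSucc 261158991)) .nil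 .nil)) (.node (.ofNat 0) (.node (.ofNat 0) (K (.ofNat 232966830)) (K (.negSucc 20603049)) .nil .nil) (.node (.ofNat 0) (K (.negSucc 874780087)) (K (.ofNat 226331752)) .nil .nil) .nil .nil) (.node (.ofNat 0) (.node (.ofNat 0) (K (.ofNat 176128042)) .nil .nil .nil) (.node (.ofNat 0) (K (.ofNat 10385288)) (K (.ofNat 633507352)) .nil .nil) .nil .nil)) (.node (.ofNat 0) (.node (.ofNat 0) (.node (.ofNat 0) .nil .nil (K (.ofNat 85334458)) (K (.negSucc 118998027))) (.node (.ofNat 0) .nil .nil (K (.ofNat 203557085)) (K (.ofNat 81244544))) (.node (.ofNat 0) (K (.ofNat 417671112)) .nil .nil .nil) (.node (.ofNat 0) (K (.negSucc 286710855)) (K (.negSucc 365476791)) .nil .nil)) (.node (.ofNat 0) (.node (.ofNat 0) .nil .nil (K (.ofNat 125000558)) (K (.ofNat 282982602))) (.node (.ofNat 0) .nil .nil (K (.negSucc 117735987)) (K (.negSucc 196706537))) (.node (.ofNat 0) (K (.ofNat 598581434)) (K (.negSucc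 455546633)) .nil .nil) (.node (.ofNat 0) (K (.ofNat 330684528)) (K (.ofNat 6985152)) .nil .nil)) (.node (.ofNat 0) (.node (.ofNat 0) (K (.ofNat 165044144)) (K (.negSucc 797521337)) .nil .nil) (.node (.ofNat 0) (K (.ofNat 306827762)) (K (.negSucc 439920463)) .nil .nil) .nil .nil) (.node (.ofNat 0) (.node (.ofNat 0) .nil (K (.ofNat 26670074)) .nil .nil) (.node (.ofNat 0) (K (.ofNat 97583842)) (K (.negSucc 7728047)) .nil .nil) .nil .nil)) (.node (.ofNat 0) (.node (.ofNat 0) (.node (.ofNat 0) (K (.negSucc 91435655)) (K (.negSucc 416267423)) .nil .nil) (.node (.ofNat 0) (K (.negSucc 25702519)) (K (.negSucc 404046313)) .nil .nil) .nil .nil) (.node (.ofNat 0) (.node (.ofNat 0) .nil (K (.negSucc 256838609)) .nil .nil) (.node (.ofNat 0) (K (.negSucc 370283214)) .nil .nil .nil) .nil .nil) .nil .nil) (.node (.ofNat 0) (.node (.ofNat 0) (.node (.ofNat 0) (K (.negSucc 400493833)) (K (.ofNat 756840418))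 .nil .nil) (.node (.ofNat 0) .nil (K (.ofNat 842795384)) .nil .nil) .nil .nil) (.node (.ofNat 0) (.node (.ofNat 0) (K (.ofNat 35259624)) (K (.ofNat 237586000)) .nil .nil) (.node (.ofNat 0) (K (.ofNat 17543824)) (K (.negSucc 74784071)) .nil .nil) .nil .nil) .nil .nil)) (.node (.ofNat 0) (.node (.ofNat 0) (.node (.ofNat 0) (.node (.ofNat 0) (K (.ofNat 178506992)) (K (.ofNat 8962056)) .nil .nil) (.node (.ofNat 0) (K (.negSucc 95092260)) (K (.negSucc 47563287)) .nil .nil) .nil .nil) (.node (.ofNat 0) (.node (.ofNat 0) (K (.ofNat 356776799)) (K (.ofNat 271782770)) .nil .nil) (.node (.ofNat 0) (K (.negSucc 44064034)) (K (.negSucc 84525223)) .nil .nil) .nil .nil) .nil .nil) (.node (.ofNat 0) (.node (.ofNat 0) (.node (.ofNat 0) (K (.negSucc 212798483)) (K (.negSucc 168671474)) .nil .nil) (.node (.ofNat 0) (K (.negSucc 59491413)) (K (.negSucc 649810334)) .nil .nil) .nil .nil) (.node (.ofNat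 0) (.node (.ofNat 0) (K (.negSucc 355418389)) (K (.ofNat 59591493)) .nil .nil) (.node (.ofNat 0) (K (.negSucc 306299252)) (K (.ofNat 90362968)) .nil .nil) .nil .nil) .nil .nil) .nil .nil) (.node (.ofNat 0) (.node (.ofNat 0) (.node (.ofNat 0) (.node (.ofNat 0) (K (.ofNat 519024234)) .nil .nil .nil) (.node (.ofNat 0) (K (.negSucc 110798424)) (K (.ofNat 116633562)) .nil .nil) .nil .nil) (.node (.ofNat 0) (.node (.ofNat 0) (K (.ofNat 338592389)) (K (.negSucc 272452397)) .nil .nil) (.node (.ofNat 0) .nil (K (.negSucc 352843367)) .nil .nil) .nil .nil) .nil .nil) (.node (.ofNat 0) (.node (.ofNat 0) (.node (.ofNat 0) (K (.negSucc 32473771)) (K (.negSucc 140428646)) .nil .nil) (.node (.ofNat 0) (K (.negSucc 203662221)) (K (.negSucc 342388752)) .nil .nil) .nil .nil) (.node (.ofNat 0) (.node (.ofNat 0) (K (.negSucc 474494677)) (K (.negSucc 124404062)) .nil .nil) (.node (.ofNat 0) (K (.negSucc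 84624365)) (K (.ofNat 112414936)) .nil .nil) .nil .nil) .nil .nil) .nil .nil))⟩,
  ⟨.z, T0, (.node (.ofNat 0) (.node (.ofNat 0) (.node (.ofNat 0) (.node (.ofNat 0) (K (.negSucc 1218815)) (K (.ofNat 51518016)) .nil .nil) (.node (.ofNat 0) (K (.ofNat 10855689)) (K (.ofNat 66755088)) .nil .nil) .nil .nil) (.node (.ofNat 0) (.node (.ofNat 0) (K (.ofNat 153389895)) (K (.ofNat 68219438)) .nil .nil) (.node (.ofNat 0) (K (.ofNat 55678935)) (K (.ofNat 18715184)) .nil .nil) .nil .nil) .nil .nil) (.node (.ofNat 0) (.node (.ofNat 0) (.node (.ofNat 0) (K (.ofNat 201067694)) (K (.ofNat 69636199)) .nil .nil) (.node (.ofNat 0) (K (.negSucc 31764913)) (K (.ofNat 76477177)) .nil .nil) .nil .nil) (.node (.ofNat 0) (.node (.ofNat 0) (K (.ofNat 449005382)) (K (.ofNat 157078303)) .nil .nil) (.node (.ofNat 0) (K (.ofNat 47376462)) (K (.negSucc 106507911)) .nil .nil) .nil .nil) .nil .nil) .nil .nil)⟩,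
  ⟨.z, T1, (.node (.ofNat 0) (.node (.ofNat 0) (.node (.ofNat 0) (.node (.ofNat 0) (K (.ofNat 192200960)) (K (.ofNat 43245360)) .nil .nil) (.node (.ofNat 0) (K (.negSucc 90390015)) (K (.ofNat 10327024)) .nil .nil) .nil .nil) (.node (.ofNat 0) (.node (.ofNat 0) (K (.ofNat 463361048)) (K (.ofNat 144383592)) .nil .nil) (.node (.ofNat 0) (K (.ofNat 1729504)) (K (.negSucc 140812791)) .nil .nil) .nil .nil) .nil .nil) (.node (.ofNat 0) (.node (.ofNat 0) (.node (.ofNat 0) (K (.ofNat 181041600)) (K (.ofNat 5577664)) .nil .nil) (.node (.ofNat 0) (K (.negSucc 29577295)) (K (.negSucc 32980911)) .nil .nil) .nil .nil) (.node (.ofNat 0) (.node (.ofNat 0) (K (.negSucc 5088239)) (K (.ofNat 14235936)) .nil .nil) (.node (.ofNat 0) (K (.negSucc 34123967)) (K (.ofNat 17489952)) .nil .nil) .nil .nil) .nil .nil) .nil .nil)⟩,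
  ⟨.z, T2, (.node (.ofNat 0) (.node (.ofNat 0) (.node (.ofNat 0) (.node (.ofNat 0) .nil .nil (K (.negSucc 38216029)) (K (.ofNat 76941010))) (.node (.ofNat 0) .nil .nil .nil (K (.ofNat 6588096))) (.node (.ofNat 0) (K (.ofNat 42959312)) (K (.negSucc 201811831)) .nil .nil) (.node (.ofNat 0) (K (.negSucc 225380887)) (K (.ofNat 63737968)) .nil .nil)) (.node (.ofNat 0) .nil (.node (.ofNat 0) .nil .nil (K (.negSucc 61002051)) (K (.ofNat 236154180))) (.node (.ofNat 0) (K (.ofNat 176762360)) (K (.negSucc 581403927)) .nil .nil) (.node (.ofNat 0) (K (.ofNat 276267424)) .nil .nil .nil)) (.node (.ofNat 0) (.node (.ofNat 0) (K (.negSucc 179649695)) (K (.ofNat 148747408)) .nil .nil) (.node (.ofNat 0) (K (.ofNat 597304456)) .nil .nil .nil) .nil .nil) (.node (.ofNat 0) .nil (.node (.ofNat 0) (K (.negSucc 323776023)) (K (.negSucc 91679695)) .nil .nil) .nil .nil)) (.node (.ofNat 0) (.node (.ofNat 0)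 (.node (.ofNat 0) .nil .nil (K (.negSucc 143298613)) .nil) (.node (.ofNat 0) .nil .nil (K (.negSucc 119066281)) (K (.ofNat 435556844))) (.node (.ofNat 0) (K (.negSucc 263391919)) (K (.negSucc 245677573)) .nil .nil) (.node (.ofNat 0) (K (.negSucc 117174369)) (K (.negSucc 116069431)) .nil .nil)) (.node (.ofNat 0) (.node (.ofNat 0) .nil .nil (K (.negSucc 239171145)) (K (.negSucc 309241489))) (.node (.ofNat 0) .nil .nil (K (.ofNat 236612530)) (K (.ofNat 196706538))) (.node (.ofNat 0) (K (.negSucc 36807279)) .nil .nil .nil) (.node (.ofNat 0) (K (.negSucc 541934935)) (K (.negSucc 6985151)) .nil .nil)) .nil (.node (.ofNat 0) (.node (.ofNat 0) (K (.negSucc 160299175)) (K (.negSucc 153199359)) .nil .nil) (.node (.ofNat 0) (K (.ofNat 982120)) (K (.ofNat 8708400)) .nil .nil) .nil .nil)) (.node (.ofNat 0) (.node (.ofNat 0) (.node (.ofNat 0) (K (.negSucc 154434575)) (K (.ofNat 39047392)) .nil .nil)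 (.node (.ofNat 0) (K (.negSucc 150139199)) (K (.ofNat 82163824)) .nil .nil) .nil .nil) .nil .nil .nil) (.node (.ofNat 0) (.node (.ofNat 0) .nil (.node (.ofNat 0) (K (.negSucc 5360895)) (K (.ofNat 26966552)) .nil .nil) .nil .nil) (.node (.ofNat 0) .nil (.node (.ofNat 0) .nil (K (.ofNat 14102840)) .nil .nil) .nil .nil) .nil .nil))⟩,
  ⟨.x, T0, (.node (.ofNat 0) (.node (.ofNat 0) (.node (.ofNat 0) (.node (.ofNat 0) .nil .nil (K (.ofNat 17876694)) (K (.negSucc 149527341))) (.node (.ofNat 0) .nil .nil (K (.ofNat 311700580)) .nil) (.node (.ofNat 0) (K (.ofNat 27577296)) (K (.ofNat 193742042)) .nil .nil) (.node (.ofNat 0) .nil (K (.negSucc 19588349)) .nil .nil)) (.node (.ofNat 0) (.node (.ofNat 0) .nil .nil (K (.negSucc 83100459)) .nil) (.node (.ofNat 0) .nil .nil (K (.negSucc 200866153)) (K (.ofNat 262312468))) (.node (.ofNat 0) (K (.negSucc 421439729)) (K (.negSucc 347245893)) .nil .nil)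 (.node (.ofNat 0) (K (.ofNat 34458448)) (K (.ofNat 7748536)) .nil .nil)) (.node (.ofNat 0) (.node (.ofNat 0) (K (.negSucc 61437167)) (K (.negSucc 8926629)) .nil .nil) .nil .nil .nil) (.node (.ofNat 0) (.node (.ofNat 0) (K (.negSucc 46642259)) (K (.negSucc 111577989)) .nil .nil) (.node (.ofNat 0) .nil (K (.negSucc 179066791)) .nil .nil) .nil .nil)) (.node (.ofNat 0) (.node (.ofNat 0) (.node (.ofNat 0) .nil .nil (K (.negSucc 161492581)) (K (.ofNat 400661698))) (.node (.ofNat 0) .nil .nil (K (.negSucc 875499617)) (K (.ofNat 41505180))) (.node (.ofNat 0) (K (.negSucc 489038807)) (K (.negSucc 657928615)) .nil .nil) (.node (.ofNat 0) .nil (K (.ofNat 112800442)) .nil .nil)) (.node (.ofNat 0) (.node (.ofNat 0) .nil .nil (K (.negSucc 289463831)) .nil) (.node (.ofNat 0) .nil .nil (K (.negSucc 706880499)) (K (.ofNat 127337596))) (.node (.ofNat 0) .nil (K (.negSucc 264573217)) .nil .nil) (.node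 (.ofNat 0) (K (.ofNat 104595994)) (K (.ofNat 8681552)) .nil .nil)) (.node (.ofNat 0) (.node (.ofNat 0) (K (.ofNat 261683104)) .nil .nil .nil) (.node (.ofNat 0) (K (.ofNat 192328142)) (K (.ofNat 262714694)) .nil .nil) .nil .nil) (.node (.ofNat 0) (.node (.ofNat 0) (K (.negSucc 743682921)) .nil .nil .nil) (.node (.ofNat 0) (K (.negSucc 97583841)) (K (.ofNat 23896576)) .nil .nil) .nil .nil)) (.node (.ofNat 0) (.node (.ofNat 0) (.node (.ofNat 0) (K (.negSucc 152207247)) (K (.ofNat 211459304)) .nil .nil) (.node (.ofNat 0) (K (.ofNat 86263526)) (K (.ofNat 204790032)) .nil .nil) .nil .nil) (.node (.ofNat 0) (.node (.ofNat 0) (K (.ofNat 391872518)) .nil .nil .nil) (.node (.ofNat 0) (K (.negSucc 83993721)) .nil .nil .nil) .nil .nil) .nil .nil) (.node (.ofNat 0) (.node (.ofNat 0) (.node (.ofNat 0) .nil (K (.negSucc 143826271)) .nil .nil) (.node (.ofNat 0) (K (.ofNat 264752624)) (K (.negSucc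 172450655)) .nil .nil) .nil .nil) (.node (.ofNat 0) (.node (.ofNat 0) (K (.negSucc 175538975)) (K (.negSucc 211223719)) .nil .nil) (.node (.ofNat 0) (K (.negSucc 164088199)) (K (.ofNat 63201144)) .nil .nil) .nil .nil) .nil .nil))⟩,
  ⟨.z, T3, (.node (.ofNat 0) (.node (.ofNat 0) (.node (.ofNat 0) (K (.ofNat 155857872)) (K (.negSucc 26170143)) .nil .nil) (.node (.ofNat 0) .nil (K (.negSucc 85322703)) .nil .nil) .nil .nil) (.node (.ofNat 0) (.node (.ofNat 0) (K (.negSucc 175790687)) (K (.negSucc 68258079)) .nil .nil) (.node (.ofNat 0) (K (.negSucc 21379407)) (K (.ofNat 46468720)) .nil .nil) .nil .nil) .nil .nil)⟩,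
  ⟨.z, T4, (.node (.ofNat 0) (.node (.ofNat 0) (.node (.ofNat 0) .nil (K (.negSucc 1646207)) .nil .nil) (.node (.ofNat 0) (K (.ofNat 10466496)) .nil .nil .nil) .nil .nil) (.node (.ofNat 0) .nil (.node (.ofNat 0) .nil (K (.negSucc 3143375)) .nil .nil) .nil .nil) .nil .nil)⟩,
  ⟨.z, T5, (.node (.ofNat 0) (.node (.ofNat 0) (.node (.ofNat 0) (K (.negSucc 154434575)) (K (.ofNat 32188288)) .nil .nil) (.node (.ofNat 0) (K (.ofNat 11234880)) (K (.ofNat 89916496)) .nil .nil) .nil .nil) (.node (.ofNat 0) (.node (.ofNat 0) (K (.negSucc 11645759)) (K (.negSucc 5465663)) .nil .nil) (.node (.ofNat 0) (K (.negSucc 41480735)) (K (.negSucc 13459103)) .nil .nil) .nil .nil) .nil .nil)⟩,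
  ⟨.z, T6, (.node (.ofNat 0) (.node (.ofNat 0) (.node (.ofNat 0) (K (.negSucc 169246559)) (K (.ofNat 36760864)) .nil .nil) (.node (.ofNat 0) (K (.negSucc 11791727)) (K (.ofNat 96844048)) .nil .nil) .nil .nil) (.node (.ofNat 0) (.node (.ofNat 0) (K (.ofNat 174912)) (K (.ofNat 4030272)) .nil .nil) (.node (.ofNat 0) (K (.negSucc 59954495)) (K (.negSucc 226943)) .nil .nil) .nil .nil) .nil .nil)⟩,
  ⟨.x, T7, (.node (.ofNat 0) (.node (.ofNat 0) (.node (.ofNat 0) (K (.ofNat 13693968)) (K (.negSucc 7876511)) .nil .nil) (.node (.ofNat 0) (K (.negSucc 4656671)) (K (.negSucc 3039695)) .nil .nil) .nil .nil) (.node (.ofNat 0) (.node (.ofNat 0) (K (.negSucc 8377343)) (K (.negSucc 208223)) .nil .nil) (.node (.ofNat 0) (K (.negSucc 1596959)) (K (.negSucc 5907023)) .nil .nil) .nil .nil) .nil .nil)⟩,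
  ⟨.x, T8, (.node (.ofNat 0) (.node (.ofNat 0) (.node (.ofNat 0) (K (.negSucc 16235279)) (K (.ofNat 14841792)) .nil .nil) (.node (.ofNat 0) (K (.ofNat 14414400)) .nil .nil .nil) .nil .nil) (.node (.ofNat 0) .nil (.node (.ofNat 0) .nil (K (.negSucc 14726303)) .nil .nil) .nil .nil) .nil .nil)⟩,
  ⟨.z, T9, (.node (.ofNat 0) (.node (.ofNat 0) (.node (.ofNat 0) .nil .nil (K (.ofNat 38972894)) (K (.negSucc 28542425))) (.node (.ofNat 0) .nil .nil (K (.ofNat 19511126)) (K (.negSucc 12335361))) (.node (.ofNat 0) (K (.negSucc 42735823)) (K (.ofNat 65697744)) .nil .nil) .nil) (.node (.ofNat 0) (.node (.ofNat 0) .nil .nil (K (.ofNat 63109990)) (K (.ofNat 246409926))) (.node (.ofNat 0) .nil .nil (K (.negSucc 148498767)) (K (.negSucc 210815))) .nil (.node (.ofNat 0) (K (.ofNat 163625456)) (K (.negSucc 878975)) .nil .nil)) (.node (.ofNat 0) (.node (.ofNat 0) (K (.ofNat 180124896)) .nil .nil .nil)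 .nil .nil .nil) (.node (.ofNat 0) (.node (.ofNat 0) (K (.negSucc 66991503)) .nil .nil .nil) (.node (.ofNat 0) (K (.ofNat 29125088)) (K (.ofNat 29217792)) .nil .nil) .nil .nil))⟩,
  ⟨.z, T10, (.node (.ofNat 0) (.node (.ofNat 0) (.node (.ofNat 0) .nil .nil (K (.ofNat 38972894)) (K (.negSucc 157577817))) (.node (.ofNat 0) .nil .nil .nil (K (.negSucc 341217601))) (.node (.ofNat 0) (K (.negSucc 42735823)) .nil .nil .nil) (.node (.ofNat 0) .nil (K (.ofNat 100512688)) .nil .nil)) (.node (.ofNat 0) (.node (.ofNat 0) .nil .nil (K (.ofNat 93324408)) (K (.negSucc 185466193))) (.node (.ofNat 0) .nil .nil (K (.ofNat 38362050)) (K (.negSucc 210815))) (.node (.ofNat 0) (K (.negSucc 144874913)) (K (.ofNat 108570370)) .nil .nil) (.node (.ofNat 0) .nil (K (.negSucc 464255)) .nil .nil)) (.node (.ofNat 0) (.node (.ofNat 0) (K (.ofNat 179878944)) (K (.ofNat 113773072)) .nil .nil) (.node (.ofNat 0) (K (.negSucc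 23862177)) .nil .nil .nil) .nil .nil) (.node (.ofNat 0) (.node (.ofNat 0) .nil (K (.negSucc 5276497)) .nil .nil) (.node (.ofNat 0) (K (.negSucc 106457345)) (K (.negSucc 42723839)) .nil .nil) .nil .nil))⟩,
  ⟨.x, T3, (.node (.ofNat 0) .nil (.node (.ofNat 0) .nil .nil (.node (.ofNat 0) .nil (K (.ofNat 236713344)) .nil .nil) .nil) (.node (.ofNat 0) .nil (.node (.ofNat 0) .nil (K (.ofNat 93784224)) .nil .nil) .nil .nil) .nil)⟩,
  ⟨.x, T4, (.node (.ofNat 0) (.node (.ofNat 0) (.node (.ofNat 0) .nil .nil (K (.negSucc 38216029)) (K (.negSucc 35566725))) .nil (.node (.ofNat 0) (K (.ofNat 42959312)) (K (.negSucc 131635655)) .nil .nil) (.node (.ofNat 0) (K (.negSucc 8705431)) (K (.ofNat 29471248)) .nil .nil)) (.node (.ofNat 0) (.node (.ofNat 0) .nil .nil (K (.ofNat 34149544)) .nil) (.node (.ofNat 0) .nil .nil (K (.ofNat 85304838)) (K (.ofNat 69368942))) (.node (.ofNat 0) (K (.negSucc 160274007))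 (K (.negSucc 159833735)) .nil .nil) (.node (.ofNat 0) (K (.ofNat 83131328)) (K (.negSucc 15666703)) .nil .nil)) (.node (.ofNat 0) (.node (.ofNat 0) (K (.negSucc 179649695)) (K (.ofNat 195726808)) .nil .nil) (.node (.ofNat 0) .nil (K (.ofNat 55472424)) .nil .nil) .nil .nil) (.node (.ofNat 0) (.node (.ofNat 0) (K (.ofNat 341767848)) .nil .nil .nil) (.node (.ofNat 0) .nil (K (.negSucc 16168527)) .nil .nil) .nil .nil))⟩,
  ⟨.z, T11, (.node (.ofNat 0) (.node (.ofNat 0) (K (.negSucc 486527)) (K (.ofNat 34706400)) .nil .nil) (.node (.ofNat 0) (K (.ofNat 50202384)) (K (.ofNat 33371904)) .nil .nil) .nil .nil)⟩,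
  ⟨.z, T12, (.node (.ofNat 0) (.node (.ofNat 0) (K (.ofNat 114432)) (K (.negSucc 24421919)) .nil .nil) (.node (.ofNat 0) (K (.negSucc 31121087)) (K (.negSucc 40743551)) .nil .nil) .nil .nil)⟩,
  ⟨.z, T13, (.node (.ofNat 0) (.node (.ofNat 0) .nil (K (.ofNat 1119744)) .nil .nil) .nil .nil .nil)⟩,
  ⟨.z, T14, (.node (.ofNat 0) (.node (.ofNat 0) (K (.ofNat 245952)) (K (.ofNat 3144384)) .nil .nil) (.node (.ofNat 0) (K (.ofNat 4102848)) (K (.ofNat 4030848)) .nil .nil) .nil .nil)⟩,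
  ⟨.z, T15, (.node (.ofNat 0) (.node (.ofNat 0) (K (.ofNat 1322496)) (K (.ofNat 346752)) .nil .nil) (.node (.ofNat 0) (K (.negSucc 1704959)) (K (.negSucc 980351)) .nil .nil) .nil .nil)⟩,
  ⟨.z, T16, (.node (.ofNat 0) (.node (.ofNat 0) .nil (K (.ofNat 4123008)) .nil .nil) (.node (.ofNat 0) (K (.ofNat 2142720)) (K (.negSucc 1537919)) .nil .nil) .nil .nil)⟩,
  ⟨.x, T17, (.node (.ofNat 0) (.node (.ofNat 0) .nil (K (.negSucc 324863)) .nil .nil) (.node (.ofNat 0) (K (.negSucc 324863)) (K (.ofNat 3504384)) .nil .nil) .nil .nil)⟩,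
  ⟨.x, T9, (.node (.ofNat 0) (.node (.ofNat 0) .nil .nil (.node (.ofNat 0) .nil .nil (K (.ofNat 6118932)) (K (.ofNat 126022908))) (.node (.ofNat 0) .nil .nil .nil (K (.ofNat 5455974)))) (.node (.ofNat 0) .nil .nil (.node (.ofNat 0) .nil .nil (K (.negSucc 97110210)) (K (.negSucc 44728092))) (.node (.ofNat 0) .nil .nil (K (.negSucc 103277313)) (K (.negSucc 1039577)))) (.node (.ofNat 0) (.node (.ofNat 0) .nil .nil (K (.negSucc 10667519)) .nil) (.node (.ofNat 0) .nil .nil (K (.negSucc 72270321)) .nil) (.node (.ofNat 0) (K (.ofNat 798336)) (K (.ofNat 19986624)) .nil .nil) (.node (.ofNat 0) (K (.ofNat 86173480)) .nil .nil .nil)) (.node (.ofNat 0) (.node (.ofNat 0) .nil .nil (K (.negSucc 65158730)) (K (.ofNat 58040271))) (.node (.ofNat 0) .nil .nil .nil (K (.ofNat 68581384))) (.node (.ofNat 0) (K (.ofNat 85086712)) (K (.ofNat 20177432)) .nil .nil) (.node (.ofNat 0) .nil (K (.ofNat 3615632))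 .nil .nil)))⟩,
  ⟨.x, T10, (.node (.ofNat 0) (.node (.ofNat 0) .nil .nil (.node (.ofNat 0) .nil .nil (K (.ofNat 15528780)) .nil) (.node (.ofNat 0) .nil .nil (K (.negSucc 31898107)) (K (.ofNat 30593037)))) (.node (.ofNat 0) .nil .nil (.node (.ofNat 0) .nil .nil (K (.negSucc 77193788)) (K (.negSucc 262253029))) (.node (.ofNat 0) .nil .nil (K (.negSucc 227186023)) (K (.negSucc 164159)))) (.node (.ofNat 0) (.node (.ofNat 0) .nil .nil (K (.negSucc 19323943)) (K (.negSucc 140226447))) (.node (.ofNat 0) .nil .nil .nil (K (.ofNat 144569907))) (.node (.ofNat 0) (K (.negSucc 8260335)) .nil .nil .nil) (.node (.ofNat 0) .nil (K (.negSucc 84928247)) .nil .nil)) (.node (.ofNat 0) (.node (.ofNat 0) .nil .nil (K (.negSucc 80043976)) .nil) (.node (.ofNat 0) .nil .nil (K (.ofNat 170351336)) (K (.negSucc 444095))) (.node (.ofNat 0) (K (.ofNat 190165016)) (K (.ofNat 102689120)) .nil .nil) (.node (.ofNat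 0) .nil (K (.ofNat 646272)) .nil .nil)))⟩,
  ⟨.z, T18, (.node (.ofNat 0) (.node (.ofNat 0) .nil .nil (K (.negSucc 14019263)) (K (.ofNat 17503632))) (.node (.ofNat 0) .nil .nil (K (.ofNat 8399952)) (K (.negSucc 51839))) (.node (.ofNat 0) (K (.ofNat 736128)) (K (.negSucc 2696111)) .nil .nil) (.node (.ofNat 0) .nil (K (.negSucc 1421567)) .nil .nil))⟩,
  ⟨.z, T19, (.node (.ofNat 0) (.node (.ofNat 0) .nil .nil (K (.ofNat 3517632)) .nil) (.node (.ofNat 0) .nil .nil (K (.negSucc 21951935)) (K (.ofNat 321408))) (.node (.ofNat 0) (K (.negSucc 617471)) (K (.negSucc 6202655)) .nil .nil) (.node (.ofNat 0) (K (.ofNat 12013344)) (K (.negSucc 993023)) .nil .nil))⟩,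
  ⟨.z, T20, (.node (.ofNat 0) (.node (.ofNat 0) .nil .nil (K (.ofNat 10833408)) (K (.negSucc 19571327))) (.node (.ofNat 0) .nil .nil (K (.negSucc 428543)) (K (.negSucc 908927))) (.node (.ofNat 0) (K (.negSucc 1478015)) .nil .nil .nil) (.node (.ofNat 0) .nil (K (.ofNat 708480)) .nil .nil))⟩,
  ⟨.x, T11, (.node (.ofNat 0) (.node (.ofNat 0) .nil .nil (K (.ofNat 19206144)) .nil) .nil .nil (.node (.ofNat 0) (K (.ofNat 2343888)) .nil .nil .nil))⟩,
  ⟨.x, T12, (.node (.ofNat 0) (.node (.ofNat 0) .nil .nil (K (.ofNat 15398208)) .nil) (.node (.ofNat 0) .nil .nil (K (.negSucc 24700319)) .nil) (.node (.ofNat 0) .nil (K (.negSucc 23832863)) .nil .nil) (.node (.ofNat 0) (K (.ofNat 9880704)) .nil .nil .nil))⟩,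
  ⟨.z, T21, (.node (.ofNat 0) (K (.ofNat 373248)) .nil .nil .nil)⟩,
  ⟨.z, T22, (.node (.ofNat 0) (K (.ofNat 539136)) (K (.negSucc 155519)) .nil .nil)⟩,
  ⟨.z, T23, (.node (.ofNat 0) .nil (K (.ofNat 518400)) .nil .nil)⟩,
  ⟨.z, T24, (.node (.ofNat 0) .nil (K (.ofNat 414720)) .nil .nil)⟩,
  ⟨.x, T25, (.node (.ofNat 0) .nil (K (.negSucc 207359)) .nil .nil)⟩,
  ⟨.x, T18, (.node (.ofNat 0) .nil .nil (.node (.ofNat 0) .nil .nil (K (.ofNat 2561802)) (K (.ofNat 70419870))) (.node (.ofNat 0) .nil .nil (K (.ofNat 23755350)) (K (.negSucc 18774413))))⟩,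
  ⟨.x, T20, (.node (.ofNat 0) .nil .nil (.node (.ofNat 0) .nil .nil (K (.negSucc 5009555)) (K (.negSucc 110762747))) (.node (.ofNat 0) .nil .nil (K (.negSucc 27170495)) (K (.negSucc 1143935))))⟩,
  ⟨.z, T26, (.node (.ofNat 0) .nil .nil (K (.ofNat 300672)) (K (.negSucc 1047167)))⟩,
  ⟨.z, T27, (.node (.ofNat 0) .nil .nil (K (.negSucc 445823)) (K (.negSucc 352511)))⟩,
  ⟨.z, T28, (.node (.ofNat 0) .nil .nil (K (.negSucc 2073599)) (K (.ofNat 1990656)))⟩,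
  ⟨.x, T22, (.node (.ofNat 0) .nil .nil .nil (K (.negSucc 352511)))⟩,
  ⟨.z, T29, (K (.ofNat 373248))⟩] c_r c_l c_p c_q)

end Pool.Agent.Helper805.NucCert
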